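import Mathlib

/-!
# The coniveau filtration on the cohomology of the powers of an abelian variety of CM type

`E` is a product of CM fields, `Γ` the Galois group of a Galois CM field `L` which contains them, `X`
the set of the embeddings of `E` in `L`, on which `Γ` acts, `c ∈ Γ` complex conjugation, `A` an abelian
variety of CM type `Φ ⊆ X`. The cohomology of `A ^ n` is the exterior algebra of `n` copies of
`H¹(A) = ⨁ x ∈ X, H¹(A)ₓ`, so that it has a basis of monomials. A monomial gives a multiset `W` of
elements of `X`, its degree is the number of the elements of `W`, and its conjugate by `γ ∈ Γ` is of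
Hodge type `(p, q)`, where `p` is the number of the `x ∈ W` with `γ • x ∈ Φ`.
-/

set_option autoImplicit false

namespace Pool.Agent.Lib.MP_386e47_ag_h1

open Classical in
/-- For `k ≤ K` the part of Hodge coniveau at least `k` of the cohomology of degree `ℓ + 2 * k` is
generated by the products of `k` divisor classes: if all conjugates of a monomial `W` of this degree
are of Hodge type `(p, q)` with `p, q ≥ k`, then `W` contains `k` pairs of complex conjugate
embeddings. (The conjugates of `W` by `γ` and by complex conjugation times `γ` are of types `(p, q)`
and `(q, p)`, so that it suffices that all `p` are at least `k`.) -/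
def ConiveauByDivisors (Γ : Type) [Group Γ] {X : Type} [MulAction Γ X] (c : Γ) (ℓ K : ℕ)
    (Φ : Finset X) : Prop :=
  ∀ (k : ℕ) (W : Multiset X), k ≤ K → W.card = ℓ + 2 * k →
    (∀ γ : Γ, k ≤ W.countP fun x => γ • x ∈ Φ) →
    ∃ P : Multiset X, P.card = k ∧ P + P.map (fun x => c • x) ≤ W

end Pool.Agent.Lib.MP_386e47_ag_h1
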