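import Mathlib
import Pool.Agent.Lib.MP_938ce2_ag_h65.Main

/-!
Odd functions with bounded sums over all translates of a CM type: the counting step and the greedy
choice of translates.
-/

set_option autoImplicit false
set_option linter.unusedSectionVars false

namespace Pool.Agent.Lib.MP_386e47_ag_h1

open Finset

section step

variable {X : Type} [DecidableEq X]

/-- for one of the subsets `P` of `N` the signed sum is large -/
lemma exists_pattern (N : Finset X) (f : X → ℤ) (s : ℤ) :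
    ∃ P ⊆ N, ∑ x ∈ N, |f x| ≤ |s - 2 * ∑ x ∈ P, f x + ∑ x ∈ N, f x| := by
  by_cases hs : 0 ≤ s
  · refine ⟨N.filter fun x => f x < 0, Finset.filter_subset _ _, ?_⟩
    have h1 : ∑ x ∈ N, |f x| = ∑ x ∈ N, f x - 2 * ∑ x ∈ N.filter (fun x => f x < 0), f x := by
      rw [Finset.sum_filter, Finset.mul_sum, ← Finset.sum_sub_distrib]
      refine Finset.sum_congr rfl fun x _ => ?_
      by_cases h : f x < 0
      · rw [if_pos h, abs_of_neg h]; ring
      · rw [if_neg h, abs_of_nonneg (not_lt.mp h)]; ring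
    have h2 : ∑ x ∈ N, |f x| ≤ s - 2 * ∑ x ∈ N.filter (fun x => f x < 0), f x + ∑ x ∈ N, f x := by
      rw [h1]; linarith
    exact h2.trans (le_abs_self _)
  · push Not at hs
    refine ⟨N.filter fun x => 0 < f x, Finset.filter_subset _ _, ?_⟩
    have h1 : ∑ x ∈ N, |f x| = -(∑ x ∈ N, f x) + 2 * ∑ x ∈ N.filter (fun x => 0 < f x), f x := by
      rw [Finset.sum_filter, Finset.mul_sum, ← Finset.sum_neg_distrib, ← Finset.sum_add_distrib]
      refine Finset.sum_congr rfl fun x _ => ?_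
      by_cases h : 0 < f x
      · rw [if_pos h, abs_of_pos h]; ring
      · rw [if_neg h, abs_of_nonpos (not_lt.mp h)]; ring
    have h2 : ∑ x ∈ N, |f x| ≤ -(s - 2 * ∑ x ∈ N.filter (fun x => 0 < f x), f x + ∑ x ∈ N, f x) := by
      rw [h1]; linarith
    exact h2.trans (neg_le_abs _)

/-- `ℓ + 1` points suffice for a large sum -/
lemma exists_small_subset (N : Finset X) (f : X → ℤ) (ℓ : ℕ) (h : (ℓ : ℤ) < ∑ x ∈ N, |f x|) :
    ∃ N' ⊆ N, N'.card ≤ ℓ + 1 ∧ (ℓ : ℤ) < ∑ x ∈ N', |f x| := by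
  by_cases hc : (N.filter fun x => f x ≠ 0).card ≤ ℓ + 1
  · refine ⟨N.filter fun x => f x ≠ 0, Finset.filter_subset _ _, hc, ?_⟩
    refine h.trans_eq ?_
    symm
    refine Finset.sum_subset (Finset.filter_subset _ _) fun x hx hx' => ?_
    rw [Finset.mem_filter, not_and, not_not] at hx'
    rw [hx' hx, abs_zero]
  · push Not at hc
    obtain ⟨N', hN', hcard⟩ := Finset.exists_subset_card_eq hc.le
    refine ⟨N', hN'.trans (Finset.filter_subset _ _), hcard.le, ?_⟩
    have h1 : (N'.card : ℤ) • (1 : ℤ) ≤ ∑ x ∈ N', |f x| := by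
      rw [natCast_zsmul]
      refine Finset.card_nsmul_le_sum _ _ _ fun x hx => ?_
      exact Int.one_le_abs (Finset.mem_filter.mp (hN' hx)).2
    rw [hcard, smul_eq_mul, mul_one] at h1
    push_cast at h1
    linarith

/-- one more condition, with large coefficients on a set `N` which does not matter for the earlier
conditions, cuts the number of subsets by the factor `1 - 1 / 2 ^ (ℓ + 1)`. -/
theorem card_step (S N : Finset X) (hN : N ⊆ S) (B : Finset (Finset X)) (hB : B ⊆ S.powerset)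
    (hinv : ∀ D ∈ B, ∀ D' ⊆ S, D \ N = D' \ N → D' ∈ B) (f : X → ℤ) (a : ℤ) (ℓ : ℕ)
    (hf : (ℓ : ℤ) < ∑ x ∈ N, |f x|) :
    ((B.filter fun D => |a - 2 * ∑ x ∈ D, f x| ≤ ℓ).card : ℝ)
      ≤ (1 - 1 / 2 ^ (ℓ + 1)) * B.card := by
  obtain ⟨N', hN', hcard, hsum⟩ := exists_small_subset N f ℓ hf
  -- the pattern
  have hpat : ∀ R : Finset X, ∃ P ⊆ N', (ℓ : ℤ) < |a - 2 * ∑ x ∈ R ∪ P, f x| ∨ ¬ Disjoint R N' := by
    intro R
    by_cases hR : Disjoint R N'
    · obtain ⟨P, hP, h1⟩ := exists_pattern N' f (a - 2 * ∑ x ∈ R, f x - ∑ x ∈ N', f x)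
      refine ⟨P, hP, Or.inl ?_⟩
      rw [Finset.sum_union (Finset.disjoint_of_subset_right hP hR)]
      have h2 : a - 2 * ∑ x ∈ R, f x - ∑ x ∈ N', f x - 2 * ∑ x ∈ P, f x + ∑ x ∈ N', f x
          = a - 2 * (∑ x ∈ R, f x + ∑ x ∈ P, f x) := by ring
      rw [h2] at h1
      exact hsum.trans_le h1
    · exact ⟨∅, Finset.empty_subset _, Or.inr hR⟩
  choose P hP hP' using hpat
  set V := B.filter fun D => ¬ |a - 2 * ∑ x ∈ D, f x| ≤ ℓ with hV
  have hmap : ∀ D ∈ B, (D \ N') ∪ P (D \ N') ∈ V := by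
    intro D hD
    rw [hV, Finset.mem_filter]
    have hDS := Finset.mem_powerset.mp (hB hD)
    refine ⟨hinv D hD _ ?_ ?_, ?_⟩
    · exact Finset.union_subset (Finset.sdiff_subset.trans hDS) (((hP _).trans hN').trans hN)
    · ext x
      simp only [Finset.mem_sdiff, Finset.mem_union]
      constructor
      · rintro ⟨h1, h2⟩
        exact ⟨Or.inl ⟨h1, fun h => h2 (hN' h)⟩, h2⟩
      · rintro ⟨h1 | h1, h2⟩
        · exact ⟨h1.1, h2⟩
        · exact absurd (hN' (hP _ h1)) h2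
    · rcases hP' (D \ N') with h1 | h1
      · exact not_le.mpr h1
      · exact absurd Finset.sdiff_disjoint h1
  have hfib : B.card ≤ 2 ^ N'.card * V.card := by
    have h1 := Finset.card_eq_sum_card_fiberwise (s := B) (t := V)
      (f := fun D => (D \ N') ∪ P (D \ N')) hmap
    rw [h1]
    refine (Finset.sum_le_card_nsmul _ _ (2 ^ N'.card) fun D₀ _ => ?_).trans_eq (by
      rw [smul_eq_mul, mul_comm])
    rw [← Finset.card_powerset]
    refine Finset.card_le_card_of_injOn (fun D => D ∩ N') ?_ ?_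
    · intro D _
      exact Finset.mem_coe.mpr (Finset.mem_powerset.mpr Finset.inter_subset_right)
    · intro D hD D' hD' h
      rw [Finset.mem_coe, Finset.mem_filter] at hD hD'
      dsimp only at h
      have h2 : ∀ D : Finset X, ((D \ N') ∪ P (D \ N')) \ N' = D \ N' := by
        intro D
        ext x
        simp only [Finset.mem_sdiff, Finset.mem_union]
        constructor
        · rintro ⟨h1 | h1, h2⟩
          · exact h1
          · exact absurd (hP _ h1) h2
        · intro h1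
          exact ⟨Or.inl h1, h1.2⟩
      have h3 : D \ N' = D' \ N' := by rw [← h2 D, ← h2 D', hD.2, hD'.2]
      rw [← Finset.sdiff_union_inter D N', ← Finset.sdiff_union_inter D' N', h3, h]
  have hpart : (B.filter fun D => |a - 2 * ∑ x ∈ D, f x| ≤ ℓ).card + V.card = B.card :=
    Finset.card_filter_add_card_filter_not (s := B) (fun D => |a - 2 * ∑ x ∈ D, f x| ≤ ℓ)
  have h4 : (B.card : ℝ) ≤ 2 ^ (ℓ + 1) * V.card := by
    have h5 : (B.card : ℝ) ≤ 2 ^ N'.card * V.card := by exact_mod_cast hfib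
    refine h5.trans (mul_le_mul_of_nonneg_right ?_ (Nat.cast_nonneg _))
    exact pow_le_pow_right₀ (by norm_num) hcard
  have h6 : ((B.filter fun D => |a - 2 * ∑ x ∈ D, f x| ≤ ℓ).card : ℝ) = B.card - V.card := by
    rw [← hpart]; push_cast; ring
  rw [h6, sub_mul, one_mul, one_div, inv_mul_eq_div, sub_le_sub_iff_left,
    div_le_iff₀ (by positivity)]
  linarith

end step

section translate

variable {X : Type} [DecidableEq X] [Fintype X] {Γ : Type} [Group Γ] [Fintype Γ] [MulAction Γ X]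

/-- the mean of a function over the translates of a point -/
lemma sum_translates_le (f : X → ℕ) (h : ℕ) (x : X)
    (hx : 2 * h ≤ (MulAction.orbit Γ x).ncard) :
    2 * h * ∑ γ : Γ, f (γ • x) ≤ Fintype.card Γ * ∑ y, f y := by
  classical
  set O : Finset X := Finset.univ.filter fun y => y ∈ MulAction.orbit Γ x with hOdef
  have hO : ∀ y, y ∈ O ↔ y ∈ MulAction.orbit Γ x := fun y => by simp [hOdef]
  have hOc : 2 * h ≤ O.card := by
    have h2 : (O : Set X) = MulAction.orbit Γ x := by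
      ext y
      rw [Finset.mem_coe, hO]
    rw [← h2, Set.ncard_coe_finset] at hx
    exact hx
  have h1 : ∑ γ : Γ, f (γ • x)
      = ∑ y ∈ O, (Finset.univ.filter fun γ : Γ => γ • x ∈ ({y} : Finset X)).card * f y := by
    rw [← Finset.sum_fiberwise_of_maps_to (s := Finset.univ) (t := O) (g := fun γ : Γ => γ • x)
      (fun γ _ => (hO _).mpr ⟨γ, rfl⟩)]
    refine Finset.sum_congr rfl fun y _ => ?_
    rw [Finset.sum_congr rfl (g := fun _ => f y) (fun γ hγ => by
      rw [(Finset.mem_filter.mp hγ).2]), Finset.sum_const, smul_eq_mul]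
    congr 2
    ext γ
    simp
  have h2 : O.card * ∑ γ : Γ, f (γ • x) = Fintype.card Γ * ∑ y ∈ O, f y := by
    rw [h1, Finset.mul_sum, Finset.mul_sum]
    refine Finset.sum_congr rfl fun y hy => ?_
    have := Pool.Agent.Lib.MP_938ce2_ag_h65.card_mul_orbit (Γ := Γ) x O {y} hO
      (Finset.singleton_subset_iff.mpr hy)
    rw [Finset.card_singleton, one_mul] at this
    rw [← mul_assoc, mul_comm O.card, this]
  calc 2 * h * ∑ γ : Γ, f (γ • x) ≤ O.card * ∑ γ : Γ, f (γ • x) := Nat.mul_le_mul_right _ hOc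
    _ = Fintype.card Γ * ∑ y ∈ O, f y := h2
    _ ≤ Fintype.card Γ * ∑ y, f y :=
        Nat.mul_le_mul_left _ (Finset.sum_le_univ_sum_of_nonneg fun _ => Nat.zero_le _)

/-- some translate has little mass on a given small set -/
lemma exists_translate' (f : X → ℕ) (h ℓ I w : ℕ) (horb : ∀ x : X, 2 * h ≤ (MulAction.orbit Γ x).ncard)
    (C : Finset X) (hC : C.card ≤ 2 * (w * I)) (hw : w * I * (ℓ + 2) < 2 * h)
    (hW : 2 * (ℓ + 2) ≤ ∑ y, f y) :
    ∃ γ : Γ, ∑ x ∈ C, f (γ • x) + 2 * ℓ < ∑ y, f y := by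
  by_contra hcon
  push Not at hcon
  set W := ∑ y, f y with hWdef
  have hpos : 0 < Fintype.card Γ := Fintype.card_pos
  have h1 : Fintype.card Γ * W ≤ ∑ γ : Γ, ∑ x ∈ C, f (γ • x) + Fintype.card Γ * (2 * ℓ) := by
    have h2 : ∑ _γ : Γ, W ≤ ∑ γ : Γ, (∑ x ∈ C, f (γ • x) + 2 * ℓ) :=
      Finset.sum_le_sum fun γ _ => hcon γ
    rw [Finset.sum_add_distrib, Finset.sum_const, Finset.sum_const, Finset.card_univ, smul_eq_mul,
      smul_eq_mul] at h2
    exact h2
  have h2 : 2 * h * ∑ γ : Γ, ∑ x ∈ C, f (γ • x) ≤ C.card * (Fintype.card Γ * W) := by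
    rw [Finset.sum_comm, Finset.mul_sum]
    refine (Finset.sum_le_card_nsmul _ _ _ fun x _ => sum_translates_le f h x (horb x)).trans_eq ?_
    rw [smul_eq_mul]
  have h3 : 2 * h * ∑ γ : Γ, ∑ x ∈ C, f (γ • x) ≤ 2 * (w * I) * (Fintype.card Γ * W) :=
    h2.trans (Nat.mul_le_mul_right _ hC)
  have h4 : 2 * h * (Fintype.card Γ * W)
      ≤ 2 * (w * I) * (Fintype.card Γ * W) + 2 * h * (Fintype.card Γ * (2 * ℓ)) := by
    have := Nat.mul_le_mul_left (2 * h) h1
    rw [mul_add] at this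
    omega
  have h5 : h * W ≤ w * I * W + h * (2 * ℓ) := by
    have h6 : Fintype.card Γ * (2 * (h * W)) ≤ Fintype.card Γ * (2 * (w * I * W + h * (2 * ℓ))) := by
      calc Fintype.card Γ * (2 * (h * W)) = 2 * h * (Fintype.card Γ * W) := by ring
        _ ≤ 2 * (w * I) * (Fintype.card Γ * W) + 2 * h * (Fintype.card Γ * (2 * ℓ)) := h4
        _ = _ := by ring
    have h7 := Nat.le_of_mul_le_mul_left h6 hpos
    omega
  have hWpos : 0 < W := by omega
  have h8 : w * I * (ℓ + 2) * W < 2 * h * W := Nat.mul_lt_mul_of_pos_right hw hWpos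
  have h9 : (ℓ + 2) * (h * W) ≤ w * I * (ℓ + 2) * W + (ℓ + 2) * (h * (2 * ℓ)) := by
    calc (ℓ + 2) * (h * W) ≤ (ℓ + 2) * (w * I * W + h * (2 * ℓ)) := Nat.mul_le_mul_left _ h5
      _ = _ := by ring
  have h10 : h * (ℓ * W) < h * (ℓ * (2 * (ℓ + 2))) := by
    have h11 : (ℓ + 2) * (h * W) = h * (ℓ * W) + 2 * h * W := by ring
    have h12 : (ℓ + 2) * (h * (2 * ℓ)) = h * (ℓ * (2 * (ℓ + 2))) := by ring
    rw [h11, h12] at h9
    omega
  have h13 : h * (ℓ * (2 * (ℓ + 2))) ≤ h * (ℓ * W) :=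
    Nat.mul_le_mul_left _ (Nat.mul_le_mul_left _ hW)
  omega

variable (c : Γ) (hcen : ∀ γ, γ * c = c * γ) (hc2 : ∀ x : X, c • c • x = x)
  (S : Finset X) (hS : ∀ x, x ∈ S ↔ c • x ∉ S) (u : X → ℤ) (hu : ∀ x, u (c • x) = - u x)

include hcen hc2 hS hu

/-- a symmetric function has the same sum over a CM type and its conjugate -/
lemma sum_stable_inter (M : Finset X) (hM : ∀ x ∈ M, c • x ∈ M) (F : X → ℤ)
    (hF : ∀ x, F (c • x) = F x) : ∑ x ∈ M, F x = 2 * ∑ x ∈ M ∩ S, F x := by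
  have h1 : ∑ x ∈ M \ S, F x = ∑ x ∈ M ∩ S, F x := by
    refine Finset.sum_nbij' (fun x => c • x) (fun x => c • x) ?_ ?_ ?_ ?_ ?_
    · intro x hx
      rw [Finset.mem_sdiff] at hx
      rw [Finset.mem_inter]
      refine ⟨hM x hx.1, (hS _).mpr ?_⟩
      rw [hc2]
      exact hx.2
    · intro x hx
      rw [Finset.mem_inter] at hx
      rw [Finset.mem_sdiff]
      exact ⟨hM x hx.1, (hS x).mp hx.2⟩
    · intro x _; exact hc2 x
    · intro x _; exact hc2 x
    · intro x _; exact (hF x).symm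
  have h2 : ∑ x ∈ M, F x = ∑ x ∈ M \ S, F x + ∑ x ∈ M ∩ S, F x := by
    rw [← Finset.sum_union (Finset.disjoint_sdiff_inter M S), Finset.sdiff_union_inter]
  rw [h2, h1]
  ring

theorem greedy' [DecidableEq Γ] (a : Γ → ℤ) (h ℓ I : ℕ)
    (horb : ∀ x : X, 2 * h ≤ (MulAction.orbit Γ x).ncard)
    (hU : (Finset.univ.filter fun x => u x ≠ 0).card ≤ 2 * I)
    (hW : 2 * (ℓ + 2) ≤ ∑ y, (u y).natAbs)
    (w : ℕ) (hw : ∀ w' < w, w' * I * (ℓ + 2) < 2 * h) :
    ∃ T : Finset Γ, T.card ≤ w ∧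
      ((S.powerset.filter fun D => ∀ γ ∈ T, |a γ - 2 * ∑ x ∈ D, u (γ • x)| ≤ ℓ).card : ℝ)
        ≤ (1 - 1 / 2 ^ (ℓ + 1)) ^ w * 2 ^ S.card := by
  have hβ : (0 : ℝ) ≤ 1 - 1 / 2 ^ (ℓ + 1) := by
    rw [sub_nonneg, div_le_one (by positivity)]
    exact one_le_pow₀ (by norm_num)
  induction w with
  | zero =>
    refine ⟨∅, le_rfl, ?_⟩
    rw [pow_zero, one_mul]
    have := Finset.card_filter_le S.powerset
      (fun D => ∀ γ ∈ (∅ : Finset Γ), |a γ - 2 * ∑ x ∈ D, u (γ • x)| ≤ ℓ)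
    rw [Finset.card_powerset] at this
    exact_mod_cast this
  | succ w ih =>
    obtain ⟨T, hT, hcount⟩ := ih fun w' hw' => hw w' (by omega)
    set U := Finset.univ.filter fun x => u x ≠ 0 with hUdef
    set C := T.biUnion fun γ => Finset.univ.filter fun x => u (γ • x) ≠ 0 with hC
    have hcardC : C.card ≤ 2 * (w * I) := by
      refine Finset.card_biUnion_le.trans ?_
      refine (Finset.sum_le_card_nsmul _ _ (2 * I) fun γ _ => ?_).trans ?_
      · refine le_trans ?_ hU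
        refine Finset.card_le_card_of_injOn (fun x => γ • x) ?_ ?_
        · intro x hx
          rw [Finset.mem_coe, Finset.mem_filter] at hx
          rw [Finset.mem_coe, hUdef, Finset.mem_filter]
          exact ⟨Finset.mem_univ _, hx.2⟩
        · intro x _ y _ h
          exact smul_left_cancel γ h
      · rw [smul_eq_mul]
        calc T.card * (2 * I) ≤ w * (2 * I) := Nat.mul_le_mul_right _ hT
          _ = 2 * (w * I) := by ring
    obtain ⟨γ, hγ⟩ := exists_translate' (Γ := Γ) (fun y => (u y).natAbs) h ℓ I w horb C hcardC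
      (hw w (Nat.lt_succ_self w)) hW
    have hCc : ∀ x ∈ C, c • x ∈ C := by
      intro x hx
      rw [hC, Finset.mem_biUnion] at hx ⊢
      obtain ⟨γ', hγ', h1⟩ := hx
      refine ⟨γ', hγ', ?_⟩
      rw [Finset.mem_filter] at h1 ⊢
      refine ⟨Finset.mem_univ _, ?_⟩
      rw [← mul_smul, hcen, mul_smul, hu]
      exact neg_ne_zero.mpr h1.2
    set M := (Finset.univ : Finset X) \ C with hM
    have hMc : ∀ x ∈ M, c • x ∈ M := by
      intro x hx
      rw [hM, Finset.mem_sdiff] at hx ⊢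
      refine ⟨Finset.mem_univ _, fun h1 => hx.2 ?_⟩
      have := hCc _ h1
      rwa [hc2] at this
    set N := M ∩ S with hN
    have hNS : N ⊆ S := Finset.inter_subset_right
    have hbig : (ℓ : ℤ) < ∑ x ∈ N, |u (γ • x)| := by
      have h1 := sum_stable_inter c hcen hc2 S hS u hu M hMc (fun x => |u (γ • x)|) (fun x => by
        rw [← mul_smul, hcen, mul_smul, hu, abs_neg])
      have h2 : ∑ x, |u (γ • x)| = ∑ y, |u y| :=
        Fintype.sum_equiv (MulAction.toPerm γ) _ _ fun x => rfl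
      have h3 : ∑ x ∈ M, |u (γ • x)| + ∑ x ∈ C, |u (γ • x)| = ∑ x, |u (γ • x)| :=
        Finset.sum_sdiff (Finset.subset_univ C)
      have h4 : (∑ x ∈ C, |u (γ • x)|) + 2 * (ℓ : ℤ) < ∑ y, |u y| := by
        have h5 : (((∑ x ∈ C, (u (γ • x)).natAbs) + 2 * ℓ : ℕ) : ℤ)
            < ((∑ y, (u y).natAbs : ℕ) : ℤ) := by exact_mod_cast hγ
        push_cast at h5
        exact h5
      rw [hN]
      linarith
    set B := S.powerset.filter fun D => ∀ γ ∈ T, |a γ - 2 * ∑ x ∈ D, u (γ • x)| ≤ ℓ with hB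
    refine ⟨insert γ T, (Finset.card_insert_le γ T).trans (by omega), ?_⟩
    have hfilter : (S.powerset.filter fun D => ∀ γ' ∈ insert γ T,
        |a γ' - 2 * ∑ x ∈ D, u (γ' • x)| ≤ ℓ)
        = B.filter fun D => |a γ - 2 * ∑ x ∈ D, u (γ • x)| ≤ ℓ := by
      ext D
      simp only [hB, Finset.mem_filter, Finset.forall_mem_insert]
      tauto
    rw [hfilter]
    have hzero : ∀ γ' ∈ T, ∀ x ∈ N, u (γ' • x) = 0 := by
      intro γ' hγ' x hx
      have hx1 : x ∈ M := (Finset.mem_inter.mp hx).1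
      rw [hM, Finset.mem_sdiff] at hx1
      by_contra hne
      apply hx1.2
      rw [hC, Finset.mem_biUnion]
      exact ⟨γ', hγ', Finset.mem_filter.mpr ⟨Finset.mem_univ _, hne⟩⟩
    have hstep := card_step S N hNS B (Finset.filter_subset _ _) ?_ (fun x => u (γ • x)) (a γ) ℓ hbig
    · calc ((B.filter fun D => |a γ - 2 * ∑ x ∈ D, u (γ • x)| ≤ ℓ).card : ℝ)
          ≤ (1 - 1 / 2 ^ (ℓ + 1)) * B.card := hstep
        _ ≤ (1 - 1 / 2 ^ (ℓ + 1)) * ((1 - 1 / 2 ^ (ℓ + 1)) ^ w * 2 ^ S.card) :=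
            mul_le_mul_of_nonneg_left hcount hβ
        _ = (1 - 1 / 2 ^ (ℓ + 1)) ^ (w + 1) * 2 ^ S.card := by ring
    · intro D hD D' hD' hDD
      rw [hB, Finset.mem_filter, Finset.mem_powerset] at hD ⊢
      refine ⟨hD', fun γ' hγ' => ?_⟩
      have h1 : ∀ E : Finset X, ∑ x ∈ E, u (γ' • x) = ∑ x ∈ E \ N, u (γ' • x) := by
        intro E
        rw [← Finset.sum_sdiff (Finset.inter_subset_left : E ∩ N ⊆ E), Finset.sdiff_inter_self_left,
          Finset.sum_eq_zero fun x hx => hzero γ' hγ' x (Finset.mem_inter.mp hx).2, add_zero]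
      have h2 := hD.2 γ' hγ'
      rw [h1 D, hDD, ← h1 D'] at h2
      exact h2

end translate

end Pool.Agent.Lib.MP_386e47_ag_h1
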