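import Mathlib
import Pool.Agent.Lib.MP_386e47_ag_h1.ConvStep
import Pool.Agent.Lib.MP_386e47_ag_h1.ConvDefs

/-!
The number of CM types whose cohomology has exceptional classes of high coniveau.
-/

set_option autoImplicit false
set_option linter.unusedSectionVars false

namespace Pool.Agent.Lib.MP_386e47_ag_h1

open Finset
open Pool.Agent.Lib.MP_938ce2_ag_h60 (CMType card_cmType sum_type)
open Pool.Agent.Lib.MP_938ce2_ag_h65 (elem vec vec_odd card_supp_vec vec_pad sum_eq_sum_ref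
  smul_smul_self)

section

variable {Γ : Type} [Group Γ] {X : Type} [MulAction Γ X] [DecidableEq X]

/-- the odd function of a multiset -/
lemma exists_vec_of_multiset {c : Γ} (hc2 : c * c = 1) (W : Multiset X) {m : ℕ} (hm : W.card = m) :
    ∃ τ : Fin m → X, ∀ x, vec c τ x = (W.count x : ℤ) - W.count (c • x) := by
  induction W using Quotient.inductionOn with
  | _ l =>
    subst hm
    refine ⟨fun i => l[i.1], fun x => ?_⟩
    unfold vec
    have h1 : ∑ i : Fin l.length, elem c (l[i.1]) x = (l.map fun y => elem c y x).sum :=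
      Fin.sum_univ_fun_getElem l fun y => elem c y x
    refine h1.trans ?_
    change _ = ((Multiset.ofList l).count x : ℤ) - (Multiset.ofList l).count (c • x)
    rw [Multiset.coe_count, Multiset.coe_count]
    clear h1
    induction l with
    | nil => simp
    | cons y l ih =>
      rw [List.map_cons, List.sum_cons, ih, List.count_cons, List.count_cons]
      unfold elem
      have h2 : (c • y = x) ↔ (y = c • x) := by
        constructor
        · rintro rfl; exact (smul_smul_self hc2 _).symm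
        · intro h; rw [h]; exact smul_smul_self hc2 x
      simp only [h2, beq_iff_eq]
      push_cast
      ring

variable [Fintype X]

/-- counting the points of a multiset in a translate of a set -/
lemma sum_count_smul (W : Multiset X) (Φ : Finset X) (γ : Γ) :
    ∑ φ ∈ Φ, W.count (γ • φ) = W.countP fun x => γ⁻¹ • x ∈ Φ := by
  induction W using Multiset.induction with
  | empty => simp
  | cons a W ih =>
    simp only [Multiset.count_cons, Multiset.countP_cons, Finset.sum_add_distrib, ih]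
    congr 1
    by_cases h : γ⁻¹ • a ∈ Φ
    · rw [if_pos h, Finset.sum_eq_single (γ⁻¹ • a)]
      · rw [smul_inv_smul, if_pos rfl]
      · intro b _ hb
        rw [if_neg]
        intro h1
        apply hb
        rw [← h1, inv_smul_smul]
      · intro h1; exact absurd h h1
    · rw [if_neg h]
      refine Finset.sum_eq_zero fun b hb => if_neg fun h1 => h ?_
      rw [← h1, inv_smul_smul]
      exact hb

/-- the multiplicities of the conjugate multiset -/
lemma count_map_conj {c : Γ} (hc2 : c * c = 1) (P : Multiset X) (x : X) :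
    (P.map fun y => c • y).count x = P.count (c • x) := by
  have h1 := Multiset.count_map_eq_count' (fun y => c • y) P
    (MulAction.injective c) (c • x)
  rw [smul_smul_self hc2] at h1
  exact h1

lemma exists_sub_card (P : Multiset X) {k : ℕ} (hk : k ≤ P.card) : ∃ Q ≤ P, Q.card = k := by
  induction P using Quotient.inductionOn with
  | _ l =>
    refine ⟨Multiset.ofList (l.take k), ?_, ?_⟩
    · exact Multiset.coe_le.mpr (List.take_sublist k l).subperm
    · change (l.take k).length = k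
      rw [List.length_take]
      exact min_eq_left hk

variable [Fintype Γ] {c : Γ} {Φ : Finset X}

/-- a multiset without `k` pairs of conjugate points has a large odd part -/
lemma odd_part_large (hc2 : c * c = 1) (hΦ : CMType c Φ)
    (W : Multiset X) (ℓ k : ℕ) (hW : W.card = ℓ + 2 * k)
    (hno : ¬ ∃ P : Multiset X, P.card = k ∧ P + P.map (fun x => c • x) ≤ W) :
    2 * (ℓ + 2) ≤ ∑ x, ((W.count x : ℤ) - W.count (c • x)).natAbs := by
  -- the largest set of pairs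
  set P₀ : Multiset X := ∑ φ ∈ Φ, Multiset.replicate (min (W.count φ) (W.count (c • φ))) φ with hP₀
  have hcount : ∀ x, P₀.count x = if x ∈ Φ then min (W.count x) (W.count (c • x)) else 0 := by
    intro x
    rw [hP₀, Multiset.count_sum']
    simp only [Multiset.count_replicate]
    rw [Finset.sum_ite_eq' Φ x]
  have hcard : P₀.card = ∑ φ ∈ Φ, min (W.count φ) (W.count (c • φ)) := by
    rw [hP₀, Multiset.card_sum]
    simp only [Multiset.card_replicate]
  have hle : P₀ + P₀.map (fun x => c • x) ≤ W := by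
    rw [Multiset.le_iff_count]
    intro x
    rw [Multiset.count_add, count_map_conj hc2, hcount, hcount, smul_smul_self hc2]
    by_cases hx : x ∈ Φ
    · have hx' : c • x ∉ Φ := (hΦ x).mp hx
      rw [if_pos hx, if_neg hx', add_zero]
      exact min_le_left _ _
    · have hx' : c • x ∈ Φ := by
        by_contra h
        exact hx ((hΦ x).mpr h)
      rw [if_neg hx, if_pos hx', zero_add]
      exact min_le_right _ _
  have hlt : P₀.card < k := by
    by_contra hcon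
    push Not at hcon
    obtain ⟨Q, hQ, hQc⟩ := exists_sub_card P₀ hcon
    exact hno ⟨Q, hQc, (add_le_add hQ (Multiset.map_le_map hQ)).trans hle⟩
  have hWsum : ∑ x, W.count x = ℓ + 2 * k := by
    rw [← hW]
    simp
  have h1 := sum_type hc2 hΦ (fun x => W.count x)
  have h2 := sum_type hc2 hΦ (fun x => ((W.count x : ℤ) - W.count (c • x)).natAbs)
  have h3 : ∑ φ ∈ Φ, ((W.count (c • φ) : ℤ) - W.count (c • c • φ)).natAbs
      = ∑ φ ∈ Φ, ((W.count φ : ℤ) - W.count (c • φ)).natAbs := by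
    refine Finset.sum_congr rfl fun φ _ => ?_
    rw [smul_smul_self hc2]
    omega
  have h4 : ∑ φ ∈ Φ, (W.count φ + W.count (c • φ))
      = ∑ φ ∈ Φ, (((W.count φ : ℤ) - W.count (c • φ)).natAbs
        + 2 * min (W.count φ) (W.count (c • φ))) := by
    refine Finset.sum_congr rfl fun φ _ => ?_
    omega
  rw [Finset.sum_add_distrib, Finset.sum_add_distrib, ← Finset.mul_sum, ← hcard, h1, hWsum] at h4
  rw [h3] at h2
  rw [← h2]
  omega

/-- the number of CM types over which all translates of an odd function have bounded sum -/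
theorem card_types_bounded (hcc : ∀ γ : Γ, c * γ = γ * c) (hc2 : c * c = 1) {g h ℓ I : ℕ}
    (hX : Fintype.card X = 2 * g) (horb : ∀ x : X, 2 * h ≤ (MulAction.orbit Γ x).ncard) (u : X → ℤ)
    (hu : ∀ x, u (c • x) = - u x) (hU : (Finset.univ.filter fun x => u x ≠ 0).card ≤ 2 * I)
    (hW : 2 * (ℓ + 2) ≤ ∑ y, (u y).natAbs) :
    ({Φ : Finset X | CMType c Φ ∧ ∀ γ : Γ, |∑ φ ∈ Φ, u (γ • φ)| ≤ ℓ}.ncard : ℝ)
      ≤ (1 - 1 / 2 ^ (ℓ + 1)) ^ (2 * (h : ℝ) / ((ℓ + 2) * I)) * 2 ^ g := by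
  classical
  have hβ : (0 : ℝ) < 1 - 1 / 2 ^ (ℓ + 1) := by
    rw [sub_pos, div_lt_one (by positivity)]
    exact one_lt_pow₀ (by norm_num) (by omega)
  have hβ1 : (1 : ℝ) - 1 / 2 ^ (ℓ + 1) ≤ 1 := by
    have : (0 : ℝ) ≤ 1 / 2 ^ (ℓ + 1) := by positivity
    linarith
  rcases ({Φ : Finset X | CMType c Φ ∧ ∀ γ : Γ, |∑ φ ∈ Φ, u (γ • φ)| ≤ ℓ}).eq_empty_or_nonempty with
    he | ⟨Φ₀, hΦ₀, -⟩
  · rw [he, Set.ncard_empty, Nat.cast_zero]
    exact mul_nonneg (Real.rpow_nonneg hβ.le _) (by positivity)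
  have hg : Φ₀.card = g := by
    have := card_cmType hc2 hΦ₀
    omega
  set a : Γ → ℤ := fun γ => ∑ φ ∈ Φ₀, u (γ • φ) with ha
  set y : ℝ := 2 * (h : ℝ) / ((ℓ + 2) * I) with hy
  obtain ⟨T, -, hcount⟩ := greedy' c (fun γ => (hcc γ).symm) (fun x => smul_smul_self hc2 x) Φ₀ hΦ₀ u
    hu a h ℓ I horb hU hW ⌈y⌉₊ (by
      intro w' hw'
      rw [Nat.lt_ceil] at hw'
      by_cases hI : I = 0
      · rw [hy, hI, Nat.cast_zero, mul_zero, div_zero] at hw'
        exact absurd hw' (not_lt.mpr (Nat.cast_nonneg _))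
      · have hI' : (0 : ℝ) < I := by exact_mod_cast Nat.pos_of_ne_zero hI
        rw [hy, lt_div_iff₀ (by positivity)] at hw'
        have : ((w' * I * (ℓ + 2) : ℕ) : ℝ) < ((2 * h : ℕ) : ℝ) := by
          push_cast
          calc (w' : ℝ) * I * (ℓ + 2) = w' * ((ℓ + 2) * I) := by ring
            _ < 2 * h := hw'
        exact_mod_cast this)
  rw [hg] at hcount
  have h1 : ({Φ : Finset X | CMType c Φ ∧ ∀ γ : Γ, |∑ φ ∈ Φ, u (γ • φ)| ≤ ℓ}).ncard
      ≤ (Φ₀.powerset.filter fun D => ∀ γ ∈ T, |a γ - 2 * ∑ x ∈ D, u (γ • x)| ≤ ℓ).card := by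
    rw [← Set.ncard_coe_finset]
    refine Set.ncard_le_ncard_of_injOn (fun Φ => Φ₀ \ Φ) ?_ ?_ (Finset.finite_toSet _)
    · rintro Φ ⟨hΦ, hγ⟩
      rw [Finset.mem_coe, Finset.mem_filter, Finset.mem_powerset]
      refine ⟨Finset.sdiff_subset, fun γ _ => ?_⟩
      have h2 := sum_eq_sum_ref hc2 hΦ₀ hΦ (fun x => u (γ • x)) (fun x => by
        rw [smul_smul, ← hcc, ← smul_smul, hu])
      rw [ha]
      dsimp only
      rw [← h2]
      exact hγ γ
    · rintro Φ ⟨hΦ, -⟩ Φ' ⟨hΦ', -⟩ hEq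
      dsimp only at hEq
      have h2 : ∀ x ∈ Φ₀, (x ∈ Φ ↔ x ∈ Φ') := by
        intro x hx
        have h3 := Finset.ext_iff.mp hEq x
        simp only [Finset.mem_sdiff, hx, true_and] at h3
        tauto
      ext x
      by_cases hx : x ∈ Φ₀
      · exact h2 x hx
      · have hx' : c • x ∈ Φ₀ := by
          rw [hΦ₀, smul_smul_self hc2]
          exact hx
        rw [hΦ x, hΦ' x, h2 _ hx']
  have h2 : ({Φ : Finset X | CMType c Φ ∧ ∀ γ : Γ, |∑ φ ∈ Φ, u (γ • φ)| ≤ ℓ}.ncard : ℝ)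
      ≤ (Φ₀.powerset.filter fun D => ∀ γ ∈ T, |a γ - 2 * ∑ x ∈ D, u (γ • x)| ≤ ℓ).card := by
    exact_mod_cast h1
  refine h2.trans (hcount.trans (mul_le_mul_of_nonneg_right ?_ (by positivity)))
  rw [← Real.rpow_natCast]
  exact Real.rpow_le_rpow_of_exponent_ge hβ hβ1 (Nat.le_ceil y)

/-- a CM type with exceptional classes gives an odd function -/
theorem exists_vec_of_bad (hcc : ∀ γ : Γ, c * γ = γ * c) (hc2 : c * c = 1)
    (hΦ : CMType c Φ) {ℓ K : ℕ}
    (hbad : ¬ ConiveauByDivisors Γ c ℓ K Φ) :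
    ∃ τ : Fin (ℓ + 2 * K) → X, 2 * (ℓ + 2) ≤ ∑ x, (vec c τ x).natAbs ∧
      ∀ γ : Γ, |∑ φ ∈ Φ, vec c τ (γ • φ)| ≤ ℓ := by
  unfold ConiveauByDivisors at hbad
  push Not at hbad
  obtain ⟨k, W, hkK, hW, hp, hno⟩ := hbad
  have hno' : ¬ ∃ P : Multiset X, P.card = k ∧ P + P.map (fun x => c • x) ≤ W := by
    rintro ⟨P, h1, h2⟩
    exact hno P h1 h2
  have hlarge := odd_part_large hc2 hΦ W ℓ k hW hno'
  obtain ⟨τ, hτ⟩ := exists_vec_of_multiset (c := c) hc2 W hW
  have hne : Nonempty X := by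
    by_contra hemp
    rw [not_nonempty_iff] at hemp
    rw [Finset.univ_eq_empty, Finset.sum_empty] at hlarge
    omega
  obtain ⟨x₀⟩ := hne
  obtain ⟨m, rfl⟩ := Nat.exists_eq_add_of_le hkK
  obtain ⟨τ', hτ'⟩ := vec_pad hc2 x₀ τ m
  have hdim : ℓ + 2 * k + 2 * m = ℓ + 2 * (k + m) := by ring
  have hex : ∃ τ'' : Fin (ℓ + 2 * (k + m)) → X, vec c τ'' = vec c τ := by
    rw [← hdim]
    exact ⟨τ', hτ'⟩
  obtain ⟨τ'', hτ''⟩ := hex
  refine ⟨τ'', ?_, fun γ => ?_⟩
  · rw [hτ'']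
    simp only [hτ]
    exact hlarge
  · rw [hτ'']
    simp only [hτ]
    rw [Finset.sum_sub_distrib]
    have hp' : ∀ δ : Γ, k ≤ W.countP fun x => δ • x ∈ Φ := by
      intro δ
      convert hp δ
    have h1 : ∑ φ ∈ Φ, (W.count (γ • φ) : ℤ) = ((W.countP fun x => γ⁻¹ • x ∈ Φ : ℕ) : ℤ) := by
      rw [← sum_count_smul W Φ γ]
      push_cast
      rfl
    have h2 : ∑ φ ∈ Φ, (W.count (c • γ • φ) : ℤ)
        = ((W.countP fun x => (c * γ)⁻¹ • x ∈ Φ : ℕ) : ℤ) := by
      rw [← sum_count_smul W Φ (c * γ)]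
      push_cast
      simp only [mul_smul]
    have h3 := sum_type hc2 hΦ (fun x => W.count (γ • x))
    have h4 : ∑ x, W.count (γ • x) = ℓ + 2 * k := by
      rw [← hW]
      have := sum_count_smul (Γ := Γ) W Finset.univ γ
      simpa using this
    have h5 : ∑ φ ∈ Φ, W.count (γ • c • φ) = W.countP fun x => (c * γ)⁻¹ • x ∈ Φ := by
      rw [← sum_count_smul W Φ (c * γ)]
      refine Finset.sum_congr rfl fun φ _ => ?_
      rw [← mul_smul, ← hcc]
    rw [sum_count_smul, h5, h4] at h3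
    rw [h1, h2, abs_le]
    have h6 := hp' γ⁻¹
    have h7 := hp' (c * γ)⁻¹
    constructor
    · omega
    · omega

/-- **Main theorem.** -/
theorem coniveau_bound (hcc : ∀ γ : Γ, c * γ = γ * c) (hc2 : c * c = 1) {g h : ℕ} (ℓ K : ℕ) (hX : Fintype.card X = 2 * g)
    (horb : ∀ x : X, 2 * h ≤ (MulAction.orbit Γ x).ncard) :
    ({Φ : Finset X | CMType c Φ ∧ ¬ ConiveauByDivisors Γ c ℓ K Φ}.ncard : ℝ)
      ≤ (2 * (g : ℝ)) ^ (ℓ + 2 * K)
        * (1 - 1 / 2 ^ (ℓ + 1)) ^ (2 * (h : ℝ) / ((ℓ + 2) * (ℓ + 2 * K))) * 2 ^ g := by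
  classical
  set q : ℝ := (1 - 1 / 2 ^ (ℓ + 1)) ^ (2 * (h : ℝ) / ((ℓ + 2) * (ℓ + 2 * K))) * 2 ^ g with hq
  have hβ : (0 : ℝ) < 1 - 1 / 2 ^ (ℓ + 1) := by
    rw [sub_pos, div_lt_one (by positivity)]
    exact one_lt_pow₀ (by norm_num) (by omega)
  have hqpos : 0 ≤ q := mul_nonneg (Real.rpow_nonneg hβ.le _) (by positivity)
  set A : Finset (Fin (ℓ + 2 * K) → X) :=
    Finset.univ.filter fun τ => 2 * (ℓ + 2) ≤ ∑ x, (vec c τ x).natAbs with hA
  set B : (Fin (ℓ + 2 * K) → X) → Finset (Finset X) := fun τ =>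
    Finset.univ.filter fun Φ => CMType c Φ ∧ ∀ γ : Γ, |∑ φ ∈ Φ, vec c τ (γ • φ)| ≤ ℓ with hB
  have h1 : {Φ : Finset X | CMType c Φ ∧ ¬ ConiveauByDivisors Γ c ℓ K Φ}
      ⊆ (A.biUnion B : Finset (Finset X)) := by
    rintro Φ ⟨hΦ, hbad⟩
    obtain ⟨τ, hτ, hle⟩ := exists_vec_of_bad hcc hc2 hΦ hbad
    rw [Finset.mem_coe, Finset.mem_biUnion]
    refine ⟨τ, Finset.mem_filter.mpr ⟨Finset.mem_univ _, hτ⟩, ?_⟩
    exact Finset.mem_filter.mpr ⟨Finset.mem_univ _, hΦ, hle⟩
  have h2 : ({Φ : Finset X | CMType c Φ ∧ ¬ ConiveauByDivisors Γ c ℓ K Φ}.ncard : ℝ)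
      ≤ ((A.biUnion B).card : ℝ) := by
    have := Set.ncard_le_ncard h1 (Finset.finite_toSet _)
    rw [Set.ncard_coe_finset] at this
    exact_mod_cast this
  have h3 : ∀ τ ∈ A, ((B τ).card : ℝ) ≤ q := by
    intro τ hτ
    have h4 := card_types_bounded (g := g) (h := h) (ℓ := ℓ) (I := ℓ + 2 * K) hcc hc2 hX horb
      (vec c τ) (fun x => vec_odd hc2 τ x) (card_supp_vec c τ Finset.univ)
      (Finset.mem_filter.mp hτ).2
    have h5 : {Φ : Finset X | CMType c Φ ∧ ∀ γ : Γ, |∑ φ ∈ Φ, vec c τ (γ • φ)| ≤ ℓ}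
        = (B τ : Set (Finset X)) := by
      ext Φ
      simp [hB]
    rw [h5, Set.ncard_coe_finset] at h4
    rw [hq]
    push_cast at h4
    exact h4
  have hAcard : (A.card : ℝ) ≤ (2 * (g : ℝ)) ^ (ℓ + 2 * K) := by
    have h4 : A.card ≤ (2 * g) ^ (ℓ + 2 * K) := by
      refine (Finset.card_filter_le _ _).trans ?_
      rw [Finset.card_univ, Fintype.card_fun, Fintype.card_fin, hX]
    exact_mod_cast h4
  calc ({Φ : Finset X | CMType c Φ ∧ ¬ ConiveauByDivisors Γ c ℓ K Φ}.ncard : ℝ)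
      ≤ ((A.biUnion B).card : ℝ) := h2
    _ ≤ ∑ τ ∈ A, ((B τ).card : ℝ) := by exact_mod_cast Finset.card_biUnion_le
    _ ≤ ∑ _τ ∈ A, q := Finset.sum_le_sum h3
    _ = (A.card : ℝ) * q := by rw [Finset.sum_const, nsmul_eq_mul]
    _ ≤ (2 * (g : ℝ)) ^ (ℓ + 2 * K) * q := mul_le_mul_of_nonneg_right hAcard hqpos
    _ = _ := by rw [hq]; ring

end

end Pool.Agent.Lib.MP_386e47_ag_h1
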