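import Mathlib
import Pool.Agent.Lib.MP_938ce2_ag_h85.Totient
import Pool.Agent.Lib.MP_938ce2_ag_h85f.Kappa

/-!
Approximation of a point of a torus by the unit multiples of a torsion point: the quantitative
statement at one level.
-/

set_option autoImplicit false

namespace Pool.Agent.Lib.MP_386e47_ag_h1

open Finset
open Pool.Agent.Lib.MP_938ce2_ag_h85f (ee kap avg ee_add ee_zero norm_ee norm_kap_le card_units_pos)

/-- characters of large order have small average over the units -/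
lemma kap_small {ε : ℝ} (hε : 0 < ε) :
    ∃ D : ℕ, ∀ (m : ℕ) [NeZero m] (x : ZMod m), D ≤ addOrderOf x → ‖kap x‖ ≤ ε := by
  refine ⟨⌈2 / ε ^ 2⌉₊ + 1, fun m _ x hx => ?_⟩
  refine (norm_kap_le x).trans ?_
  set R := addOrderOf x
  have h1 : (R : ℝ) ≤ 2 * (Nat.totient R : ℝ) ^ 2 := by
    exact_mod_cast Pool.Agent.Lib.MP_938ce2_ag_h85.le_two_mul_totient_sq R
  have h2 : 2 / ε ^ 2 ≤ R := by
    have h3 := Nat.le_ceil (2 / ε ^ 2)
    have h4 : ((⌈2 / ε ^ 2⌉₊ + 1 : ℕ) : ℝ) ≤ R := by exact_mod_cast hx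
    push_cast at h4
    linarith
  have hφ : (0 : ℝ) < Nat.totient R := by
    have : 0 < R := by omega
    exact_mod_cast Nat.totient_pos.mpr this
  rw [div_le_iff₀ hφ]
  rw [div_le_iff₀ (by positivity)] at h2
  have h3 : (1 : ℝ) ^ 2 ≤ (ε * Nat.totient R) ^ 2 := by
    nlinarith [mul_le_mul_of_nonneg_right h1 (sq_nonneg ε)]
  exact le_of_sq_le_sq h3 (by positivity)

section pr

variable {ι : Type} [Fintype ι] {m : ℕ}

/-- the value of the relation `χ` at the point `a` -/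
def pr (a : ι → ZMod m) : (ι → ℤ) →+ ZMod m where
  toFun χ := ∑ i, (χ i : ZMod m) * a i
  map_zero' := by simp
  map_add' χ ψ := by
    simp only [Pi.add_apply, Int.cast_add, add_mul, Finset.sum_add_distrib]

lemma pr_apply (a : ι → ZMod m) (χ : ι → ℤ) : pr a χ = ∑ i, (χ i : ZMod m) * a i := rfl

variable [NeZero m]

lemma ee_ne_zero (y : ZMod m) : ee y ≠ 0 := by
  intro h
  have := norm_ee y
  rw [h, norm_zero] at this
  exact zero_ne_one this

lemma ee_zsmul (k : ℤ) (y : ZMod m) : ee ((k : ZMod m) * y) = ee y ^ k := by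
  rw [← zsmul_eq_mul]
  exact AddChar.map_zsmul_eq_zpow _ _ _

lemma ee_neg (y : ZMod m) : ee (-y) = (ee y)⁻¹ := by
  have := ee_zsmul (-1) y
  simpa using this

lemma ee_sum {α : Type} (s : Finset α) (f : α → ZMod m) : ee (∑ i ∈ s, f i) = ∏ i ∈ s, ee (f i) := by
  classical
  induction s using Finset.induction_on with
  | empty => simp [ee_zero]
  | insert i s hi ih => rw [Finset.sum_insert hi, Finset.prod_insert hi, ee_add, ih]

lemma ee_inj {y z : ZMod m} (h : ee y = ee z) : y = z := by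
  unfold ee at h
  exact ZMod.injective_stdAddChar h

lemma ee_mul_pr (a : ι → ZMod m) (χ : ι → ℤ) (v : ZMod m) :
    ee (v * pr a χ) = ∏ i, ee (v * a i) ^ χ i := by
  rw [pr_apply, Finset.mul_sum, ee_sum]
  refine Finset.prod_congr rfl fun i _ => ?_
  rw [← ee_zsmul]
  ring_nf

end pr

section test

/-- the coefficients of the test function -/
noncomputable def beta (N k : ℕ) : ℝ := ((2 * N).choose k : ℝ) / 4 ^ N

lemma beta_nonneg (N k : ℕ) : 0 ≤ beta N k := by unfold beta; positivity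

lemma sum_beta (N : ℕ) : ∑ k ∈ range (2 * N + 1), beta N k = 1 := by
  unfold beta
  rw [← Finset.sum_div]
  have h : ∑ k ∈ range (2 * N + 1), ((2 * N).choose k : ℝ) = 2 ^ (2 * N) := by
    exact_mod_cast Nat.sum_range_choose (2 * N)
  rw [h, pow_mul]
  norm_num

lemma test_expand {w : ℂ} (hw : w ≠ 0) (N : ℕ) :
    ((2 + w + w⁻¹) / 4) ^ N = ∑ k ∈ range (2 * N + 1), (beta N k : ℂ) * w ^ ((k : ℤ) - N) := by
  have h1 : (2 + w + w⁻¹) / 4 = (1 + w) ^ 2 / (4 * w) := by
    field_simp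
    ring
  rw [h1, div_pow, ← pow_mul, mul_pow, add_comm (1 : ℂ) w, add_pow, Finset.sum_div]
  refine Finset.sum_congr rfl fun k hk => ?_
  unfold beta
  push_cast
  rw [zpow_sub₀ hw, zpow_natCast, zpow_natCast]
  field_simp
  ring

lemma test_real {w : ℂ} (hw : ‖w‖ = 1) : (2 + w + w⁻¹) / 4 = (((1 + w.re) / 2 : ℝ) : ℂ) := by
  have h1 : w⁻¹ = (starRingEnd ℂ) w := by
    rw [Complex.inv_def, Complex.normSq_eq_norm_sq, hw]
    simp
  rw [h1]
  apply Complex.ext <;> simp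
  ring

lemma test_nonneg {w : ℂ} (hw : ‖w‖ = 1) : 0 ≤ (1 + w.re) / 2 := by
  have := Complex.abs_re_le_norm w
  rw [hw, abs_le] at this
  linarith [this.1]

lemma test_le_one {w : ℂ} (hw : ‖w‖ = 1) : (1 + w.re) / 2 ≤ 1 := by
  have := Complex.abs_re_le_norm w
  rw [hw, abs_le] at this
  linarith [this.2]

lemma test_far {w : ℂ} (hw : ‖w‖ = 1) {ε : ℝ} (hε : 0 ≤ ε) (h : ε ≤ ‖w - 1‖) :
    (1 + w.re) / 2 ≤ 1 - ε ^ 2 / 4 := by
  have h1 : ‖w - 1‖ ^ 2 = 2 - 2 * w.re := by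
    rw [← Complex.normSq_eq_norm_sq, Complex.normSq_apply]
    have h2 : w.re * w.re + w.im * w.im = 1 := by
      have := Complex.normSq_eq_norm_sq w
      rw [hw, Complex.normSq_apply] at this
      linarith
    simp
    linarith
  have h2 : ε ^ 2 ≤ ‖w - 1‖ ^ 2 := by gcongr
  linarith

lemma beta_mid (N : ℕ) : beta N N = (Nat.centralBinom N : ℝ) / 4 ^ N := by
  unfold beta
  rw [Nat.centralBinom_eq_two_mul_choose]

/-- the middle coefficient beats an exponential -/
lemma exists_gap (r : ℕ) {δ : ℝ} (h0 : 0 < δ) (h1 : δ ≤ 1) :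
    ∃ N : ℕ, (1 - δ) ^ N < (beta N N) ^ r := by
  have hlim : Filter.Tendsto (fun n : ℕ => (n : ℝ) ^ r * (1 - δ) ^ n) Filter.atTop (nhds 0) :=
    tendsto_pow_const_mul_const_pow_of_abs_lt_one r (by rw [abs_lt]; constructor <;> linarith)
  have h2 : ∀ᶠ n : ℕ in Filter.atTop, (n : ℝ) ^ r * (1 - δ) ^ n < (1 / 2) ^ r := by
    have := hlim.eventually (gt_mem_nhds (show (0 : ℝ) < (1 / 2) ^ r by positivity))
    exact this
  obtain ⟨N, hN, hN1⟩ := (h2.and (Filter.eventually_ge_atTop 1)).exists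
  refine ⟨N, ?_⟩
  have hNpos : (0 : ℝ) < N := by exact_mod_cast hN1
  have h3 : (1 : ℝ) / (2 * N) ≤ beta N N := by
    rw [beta_mid, div_le_div_iff₀ (by positivity) (by positivity)]
    have := Nat.four_pow_le_two_mul_self_mul_centralBinom N hN1
    have h4 : (4 : ℝ) ^ N ≤ 2 * N * Nat.centralBinom N := by exact_mod_cast this
    linarith
  have h4 : (1 - δ) ^ N < ((1 : ℝ) / (2 * N)) ^ r := by
    have h5 : ((1 : ℝ) / (2 * N)) ^ r = (1 / 2) ^ r / N ^ r := by
      rw [← div_pow]; congr 1; field_simp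
    rw [h5, lt_div_iff₀ (by positivity)]
    linarith
  refine h4.trans_le ?_
  gcongr

end test

end Pool.Agent.Lib.MP_386e47_ag_h1
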