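import Mathlib
import Pool.Agent.Lib.MP_386e47_ag_h1.Core

/-!
Approximation of a point of a torus by the unit multiples of a torsion point.
-/

set_option autoImplicit false
set_option linter.unusedSectionVars false

namespace Pool.Agent.Lib.MP_386e47_ag_h1

open Finset
open Pool.Agent.Lib.MP_938ce2_ag_h85f (ee kap avg ee_add ee_zero norm_ee norm_kap_le card_units_pos)

section

variable {ι R : Type} [Fintype ι] [Fintype R] [DecidableEq R] {m : ℕ} [NeZero m]

/-- the units which agree with `v₀` on the relations `s` -/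
noncomputable def vset (a : ι → ZMod m) (s : R → ι → ℤ) (v₀ : (ZMod m)ˣ) : Finset (ZMod m)ˣ :=
  univ.filter fun v => ∀ ρ, (v : ZMod m) * pr a (s ρ) = v₀ * pr a (s ρ)

lemma mem_vset {a : ι → ZMod m} {s : R → ι → ℤ} {v₀ v : (ZMod m)ˣ} :
    v ∈ vset a s v₀ ↔ ∀ ρ, (v : ZMod m) * pr a (s ρ) = v₀ * pr a (s ρ) := by
  simp [vset]

lemma card_vset (a : ι → ZMod m) (s : R → ι → ℤ) {Q : ℕ} (hQ : 0 < Q)
    (hs : ∀ ρ, Q • pr a (s ρ) = 0) (v₀ : (ZMod m)ˣ) :
    Fintype.card (ZMod m)ˣ ≤ Q ^ Fintype.card R * (vset a s v₀).card := by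
  classical
  set f : (ZMod m)ˣ → (R → ZMod m) := fun v ρ => (v : ZMod m) * pr a (s ρ) with hf
  have h1 : ∀ y ∈ univ.image f, (univ.filter fun v => f v = y).card ≤ (vset a s v₀).card := by
    intro y hy
    obtain ⟨v₁, -, rfl⟩ := Finset.mem_image.mp hy
    refine Finset.card_le_card_of_injOn (fun v => v * v₁⁻¹ * v₀) ?_ ?_
    · intro v hv
      have hv' : f v = f v₁ := (Finset.mem_filter.mp hv).2
      simp only [Finset.mem_coe, mem_vset]
      intro ρ
      have h2 : (v : ZMod m) * pr a (s ρ) = v₁ * pr a (s ρ) := congrFun hv' ρ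
      have h3 : ((v₁⁻¹ : (ZMod m)ˣ) : ZMod m) * v₁ = 1 := Units.inv_mul v₁
      push_cast
      calc (v : ZMod m) * ((v₁⁻¹ : (ZMod m)ˣ) : ZMod m) * v₀ * pr a (s ρ)
          = ((v₁⁻¹ : (ZMod m)ˣ) : ZMod m) * v₀ * (v * pr a (s ρ)) := by ring
        _ = (((v₁⁻¹ : (ZMod m)ˣ) : ZMod m) * v₁) * v₀ * pr a (s ρ) := by rw [h2]; ring
        _ = _ := by rw [h3, one_mul]
    · intro v _ w _ h
      simpa using h
  have h2 : (univ.image f).card ≤ Q ^ Fintype.card R := by
    have h3 : univ.image f ⊆ Fintype.piFinset fun _ : R => univ.filter fun y : ZMod m => Q • y = 0 := by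
      intro y hy
      obtain ⟨v, -, rfl⟩ := Finset.mem_image.mp hy
      rw [Fintype.mem_piFinset]
      intro ρ
      simp only [Finset.mem_filter, Finset.mem_univ, true_and, hf]
      rw [← mul_smul_comm, hs ρ, mul_zero]
    refine (Finset.card_le_card h3).trans ?_
    rw [Fintype.card_piFinset, Finset.prod_const, Finset.card_univ]
    exact Nat.pow_le_pow_left (IsAddCyclic.card_nsmul_eq_zero_le hQ) _
  calc Fintype.card (ZMod m)ˣ = (univ : Finset (ZMod m)ˣ).card := Finset.card_univ.symm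
    _ = ∑ y ∈ univ.image f, (univ.filter fun v => f v = y).card :=
        Finset.card_eq_sum_card_image f _
    _ ≤ ∑ _y ∈ univ.image f, (vset a s v₀).card := Finset.sum_le_sum h1
    _ = (univ.image f).card * (vset a s v₀).card := by rw [Finset.sum_const, smul_eq_mul]
    _ ≤ _ := Nat.mul_le_mul_right _ h2

lemma geom_ee {Q : ℕ} (hQ : 0 < Q) {y : ZMod m} (hy : Q • y = 0) :
    ((Q : ℂ)⁻¹) * ∑ j ∈ range Q, ee y ^ j = if y = 0 then 1 else 0 := by
  have hQ' : (Q : ℂ) ≠ 0 := by exact_mod_cast hQ.ne'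
  split_ifs with h
  · subst h
    simp [ee_zero, hQ']
  · have h1 : ee y ≠ 1 := by
      rw [← ee_zero (m := m)]
      exact fun h2 => h (ee_inj h2)
    have h2 : ee y ^ Q = 1 := by
      have := ee_zsmul (Q : ℤ) y
      rw [zpow_natCast] at this
      rw [← this]
      rw [nsmul_eq_mul] at hy
      push_cast
      rw [hy, ee_zero]
    have h3 : (ee y - 1) * ∑ j ∈ range Q, ee y ^ j = 0 := by
      rw [mul_comm, geom_sum_mul, h2, sub_self]
    rcases mul_eq_zero.mp h3 with h4 | h4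
    · exact absurd (sub_eq_zero.mp h4) h1
    · rw [h4, mul_zero]

/-- the combination of the relations with coefficients `J` -/
def comb (s : R → ι → ℤ) (J : R → ℕ) : ι → ℤ := ∑ ρ, (J ρ : ℤ) • s ρ

lemma indicator_expand (a : ι → ZMod m) (s : R → ι → ℤ) {Q : ℕ} (hQ : 0 < Q)
    (hs : ∀ ρ, Q • pr a (s ρ) = 0) (v₀ v : (ZMod m)ˣ) :
    (if v ∈ vset a s v₀ then (1 : ℂ) else 0) = ((Q : ℂ)⁻¹) ^ Fintype.card R *
      ∑ J ∈ Fintype.piFinset (fun _ : R => range Q),
        ee ((v : ZMod m) * pr a (comb s J)) * ee (-((v₀ : ZMod m) * pr a (comb s J))) := by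
  classical
  have h1 : ∀ ρ, Q • ((v : ZMod m) * pr a (s ρ) - v₀ * pr a (s ρ)) = 0 := by
    intro ρ
    rw [smul_sub, ← mul_smul_comm, ← mul_smul_comm, hs ρ, mul_zero, mul_zero, sub_zero]
  have h2 : (if v ∈ vset a s v₀ then (1 : ℂ) else 0)
      = ∏ ρ, (if (v : ZMod m) * pr a (s ρ) - v₀ * pr a (s ρ) = 0 then (1 : ℂ) else 0) := by
    rw [Finset.prod_ite_zero]
    simp only [Finset.prod_const_one, mem_vset, sub_eq_zero, Finset.mem_univ, true_implies]
  rw [h2, Finset.prod_congr rfl fun ρ _ => (geom_ee hQ (h1 ρ)).symm, Finset.prod_mul_distrib,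
    Finset.prod_const, Finset.card_univ, Finset.prod_univ_sum]
  congr 1
  refine Finset.sum_congr rfl fun J _ => ?_
  rw [← ee_add]
  have h3 : (v : ZMod m) * pr a (comb s J) + -(v₀ * pr a (comb s J))
      = ∑ ρ, ((J ρ : ℤ) : ZMod m) * ((v : ZMod m) * pr a (s ρ) - v₀ * pr a (s ρ)) := by
    have h4 : pr a (comb s J) = ∑ ρ, ((J ρ : ℤ) : ZMod m) * pr a (s ρ) := by
      unfold comb
      rw [map_sum]
      refine Finset.sum_congr rfl fun ρ _ => ?_
      rw [map_zsmul, zsmul_eq_mul]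
    rw [h4, Finset.mul_sum, Finset.mul_sum, ← sub_eq_add_neg, ← Finset.sum_sub_distrib]
    refine Finset.sum_congr rfl fun ρ _ => ?_
    ring
  rw [h3, ee_sum]
  refine Finset.prod_congr rfl fun ρ _ => ?_
  rw [ee_zsmul, zpow_natCast]

lemma norm_avg_le' (g : (ZMod m)ˣ → ℂ) : ‖avg g‖ ≤ avg fun t => ‖g t‖ := by
  unfold avg
  rw [norm_smul, Real.norm_eq_abs, abs_of_nonneg (by positivity), smul_eq_mul]
  gcongr
  exact norm_sum_le _ _

/-- the average of a character over the restricted set of units -/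
lemma restricted_avg (a : ι → ZMod m) (s : R → ι → ℤ) {Q : ℕ} (hQ : 0 < Q)
    (hs : ∀ ρ, Q • pr a (s ρ) = 0) (v₀ : (ZMod m)ˣ) (χ : ι → ℤ) {η : ℝ} (hη : 0 ≤ η)
    (hk : ∀ J ∈ Fintype.piFinset (fun _ : R => range Q), ‖kap (pr a (χ + comb s J))‖ ≤ η) :
    ‖avg fun v : (ZMod m)ˣ => (if v ∈ vset a s v₀ then (1 : ℂ) else 0) * ee ((v : ZMod m) * pr a χ)‖ ≤ η := by
  classical
  have h1 : (avg fun v : (ZMod m)ˣ => (if v ∈ vset a s v₀ then (1 : ℂ) else 0) * ee ((v : ZMod m) * pr a χ))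
      = ((Q : ℂ)⁻¹) ^ Fintype.card R * ∑ J ∈ Fintype.piFinset (fun _ : R => range Q),
        ee (-((v₀ : ZMod m) * pr a (comb s J))) * kap (pr a (χ + comb s J)) := by
    have hE : ∀ v : (ZMod m)ˣ, (if v ∈ vset a s v₀ then (1 : ℂ) else 0) * ee ((v : ZMod m) * pr a χ)
        = ((Q : ℂ)⁻¹) ^ Fintype.card R * ∑ J ∈ Fintype.piFinset (fun _ : R => range Q),
          ee (-((v₀ : ZMod m) * pr a (comb s J))) * ee ((v : ZMod m) * pr a (χ + comb s J)) := by
      intro v
      rw [indicator_expand a s hQ hs v₀ v, mul_assoc, Finset.sum_mul]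
      congr 1
      refine Finset.sum_congr rfl fun J _ => ?_
      rw [map_add, mul_add, ee_add]
      ring
    unfold kap avg
    simp only [hE]
    rw [← Finset.mul_sum, Finset.sum_comm]
    simp only [← Finset.mul_sum, Complex.real_smul]
    rw [mul_left_comm, Finset.mul_sum]
    congr 1
    refine Finset.sum_congr rfl fun J _ => ?_
    ring
  rw [h1, norm_mul, norm_pow, norm_inv, Complex.norm_natCast]
  have hQ' : (0 : ℝ) < Q := by exact_mod_cast hQ
  have h2 : ‖∑ J ∈ Fintype.piFinset (fun _ : R => range Q),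
        ee (-((v₀ : ZMod m) * pr a (comb s J))) * kap (pr a (χ + comb s J))‖ ≤ (Q : ℝ) ^ Fintype.card R * η := by
    calc ‖∑ J ∈ Fintype.piFinset (fun _ : R => range Q),
          ee (-((v₀ : ZMod m) * pr a (comb s J))) * kap (pr a (χ + comb s J))‖
        ≤ ∑ J ∈ Fintype.piFinset (fun _ : R => range Q),
          ‖ee (-((v₀ : ZMod m) * pr a (comb s J))) * kap (pr a (χ + comb s J))‖ := norm_sum_le _ _
      _ ≤ ∑ _J ∈ Fintype.piFinset (fun _ : R => range Q), η := by
          refine Finset.sum_le_sum fun J hJ => ?_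
          rw [norm_mul, norm_ee, one_mul]
          exact hk J hJ
      _ = (Q : ℝ) ^ Fintype.card R * η := by
          rw [Finset.sum_const, Fintype.card_piFinset]
          simp
  calc ((Q : ℝ)⁻¹) ^ Fintype.card R * ‖∑ J ∈ Fintype.piFinset (fun _ : R => range Q),
        ee (-((v₀ : ZMod m) * pr a (comb s J))) * kap (pr a (χ + comb s J))‖
      ≤ ((Q : ℝ)⁻¹) ^ Fintype.card R * ((Q : ℝ) ^ Fintype.card R * η) := by gcongr
    _ = η := by rw [← mul_assoc, ← mul_pow, inv_mul_cancel₀ hQ'.ne', one_pow, one_mul]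

/-- exponents of the test function -/
def expo (N : ℕ) (k : ι → ℕ) : ι → ℤ := fun i => (k i : ℤ) - N

lemma prod_test {w : ι → ℂ} (hw : ∀ i, w i ≠ 0) (N : ℕ) [DecidableEq ι] :
    ∏ i, ((2 + w i + (w i)⁻¹) / 4) ^ N = ∑ k ∈ Fintype.piFinset (fun _ : ι => range (2 * N + 1)),
      (((∏ i, beta N (k i) : ℝ)) : ℂ) * ∏ i, w i ^ expo N k i := by
  rw [Finset.prod_congr rfl fun i _ => test_expand (hw i) N, Finset.prod_univ_sum]
  refine Finset.sum_congr rfl fun k _ => ?_
  rw [Finset.prod_mul_distrib]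
  push_cast
  rfl

theorem core (a : ι → ZMod m) (s : R → ι → ℤ) {Q : ℕ} (hQ : 0 < Q)
    (hs : ∀ ρ, Q • pr a (s ρ) = 0) (v₀ : (ZMod m)ˣ) (z : ι → ℂ) (hz : ∀ i, ‖z i‖ = 1)
    (hz0 : ∀ ρ, ∏ i, z i ^ s ρ i = ee ((v₀ : ZMod m) * pr a (s ρ)))
    (N : ℕ) {ε η : ℝ} (hε : 0 < ε) (hε1 : ε ≤ 1) (hη : 0 ≤ η)
    (hk : ∀ χ : ι → ℤ, (∀ i, |χ i| ≤ N) → χ ∉ AddSubgroup.closure (Set.range s) →
      ∀ J ∈ Fintype.piFinset (fun _ : R => range Q), ‖kap (pr a (χ + comb s J))‖ ≤ η)
    (hgap : η * Q ^ Fintype.card R < (beta N N) ^ Fintype.card ι - (1 - ε ^ 2 / 4) ^ N) :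
    ∃ v : (ZMod m)ˣ, ∀ i, ‖ee ((v : ZMod m) * a i) - z i‖ < ε := by
  classical
  by_contra hcon
  push Not at hcon
  set V := vset a s v₀ with hV
  set Λ := AddSubgroup.closure (Set.range s) with hΛ
  have hz' : ∀ i, z i ≠ 0 := fun i h => by
    have := hz i
    rw [h, norm_zero] at this
    exact zero_ne_one this
  -- the relations hold on the whole group
  have hrel : ∀ v ∈ V, ∀ χ ∈ Λ, ∏ i, z i ^ χ i = ee ((v : ZMod m) * pr a χ) := by
    intro v hv χ hχ
    induction hχ using AddSubgroup.closure_induction with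
    | mem χ h =>
      obtain ⟨ρ, rfl⟩ := h
      rw [hz0 ρ, (mem_vset.mp hv) ρ]
    | zero => simp [ee_zero]
    | add χ ψ _ _ h1 h2 =>
      rw [map_add, mul_add, ee_add, ← h1, ← h2, ← Finset.prod_mul_distrib]
      refine Finset.prod_congr rfl fun i _ => ?_
      rw [Pi.add_apply, zpow_add₀ (hz' i)]
    | neg χ _ h =>
      rw [map_neg, mul_neg, ee_neg, ← h, ← Finset.prod_inv_distrib]
      refine Finset.prod_congr rfl fun i _ => ?_
      rw [Pi.neg_apply, zpow_neg]
  -- the test function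
  set F : (ZMod m)ˣ → ℝ := fun v => ∏ i, ((1 + (ee ((v : ZMod m) * a i) / z i).re) / 2) ^ N with hF
  have hw1 : ∀ (v : (ZMod m)ˣ) i, ‖ee ((v : ZMod m) * a i) / z i‖ = 1 := by
    intro v i
    rw [norm_div, norm_ee, hz i, div_one]
  have hw0 : ∀ (v : (ZMod m)ˣ) i, ee ((v : ZMod m) * a i) / z i ≠ 0 := fun v i =>
    div_ne_zero (ee_ne_zero _) (hz' i)
  have hFexp : ∀ v : (ZMod m)ˣ, (F v : ℂ) = ∑ k ∈ Fintype.piFinset (fun _ : ι => range (2 * N + 1)),
      (((∏ i, beta N (k i) : ℝ)) : ℂ) * ((∏ i, z i ^ expo N k i)⁻¹ *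
        ee ((v : ZMod m) * pr a (expo N k))) := by
    intro v
    have h1 : (F v : ℂ) = ∏ i, ((2 + ee ((v : ZMod m) * a i) / z i
        + (ee ((v : ZMod m) * a i) / z i)⁻¹) / 4) ^ N := by
      rw [hF]
      push_cast
      refine Finset.prod_congr rfl fun i _ => ?_
      rw [test_real (hw1 v i)]
      push_cast
      rfl
    rw [h1, prod_test (hw0 v) N]
    refine Finset.sum_congr rfl fun k _ => ?_
    congr 1
    rw [ee_mul_pr, ← Finset.prod_inv_distrib, ← Finset.prod_mul_distrib]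
    refine Finset.prod_congr rfl fun i _ => ?_
    rw [div_zpow, div_eq_mul_inv, mul_comm]
  -- the fraction of the units in `V`
  set δ : ℝ := (V.card : ℝ) / Fintype.card (ZMod m)ˣ with hδ
  have hcard := card_units_pos (m := m)
  have hδ0 : 0 ≤ δ := by positivity
  have hδlow : 1 ≤ (Q : ℝ) ^ Fintype.card R * δ := by
    have h1 := card_vset a s hQ hs v₀
    have h2 : ((Fintype.card (ZMod m)ˣ : ℕ) : ℝ) ≤ (Q : ℝ) ^ Fintype.card R * V.card := by
      exact_mod_cast h1
    rw [hδ, ← mul_div_assoc, le_div_iff₀ hcard, one_mul]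
    exact h2
  have havgV : (avg fun v : (ZMod m)ˣ => (if v ∈ V then (1 : ℂ) else 0)) = δ := by
    unfold avg
    rw [Finset.sum_ite_mem, Finset.univ_inter, Finset.sum_const, Complex.real_smul, hδ]
    push_cast
    rw [nsmul_eq_mul, mul_one]
    ring
  -- the average of the test function over `V`
  set A : ℂ := avg fun v : (ZMod m)ˣ => (if v ∈ V then (1 : ℂ) else 0) * (F v : ℂ) with hA
  have hAexp : A = ∑ k ∈ Fintype.piFinset (fun _ : ι => range (2 * N + 1)),
      (((∏ i, beta N (k i) : ℝ)) : ℂ) * ((∏ i, z i ^ expo N k i)⁻¹ *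
        avg fun v : (ZMod m)ˣ => (if v ∈ V then (1 : ℂ) else 0) * ee ((v : ZMod m) * pr a (expo N k))) := by
    rw [hA]
    unfold avg
    simp only [hFexp, Finset.mul_sum, Complex.real_smul]
    rw [Finset.sum_comm]
    refine Finset.sum_congr rfl fun k _ => Finset.sum_congr rfl fun v _ => ?_
    ring
  -- terms of the relations
  have hterm : ∀ k ∈ Fintype.piFinset (fun _ : ι => range (2 * N + 1)), expo N k ∈ Λ →
      (∏ i, z i ^ expo N k i)⁻¹ *
        (avg fun v : (ZMod m)ˣ => (if v ∈ V then (1 : ℂ) else 0) * ee ((v : ZMod m) * pr a (expo N k)))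
        = δ := by
    intro k _ hkΛ
    have hP : ∏ i, z i ^ expo N k i ≠ 0 := Finset.prod_ne_zero_iff.mpr fun i _ => zpow_ne_zero _ (hz' i)
    have h1 : ∀ v : (ZMod m)ˣ, (if v ∈ V then (1 : ℂ) else 0) * ee ((v : ZMod m) * pr a (expo N k))
        = (∏ i, z i ^ expo N k i) * (if v ∈ V then (1 : ℂ) else 0) := by
      intro v
      split_ifs with hv
      · rw [hrel v hv _ hkΛ, one_mul, mul_one]
      · rw [zero_mul, mul_zero]
    simp only [h1]
    have h2 : (avg fun v : (ZMod m)ˣ => (∏ i, z i ^ expo N k i) * (if v ∈ V then (1 : ℂ) else 0))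
        = (∏ i, z i ^ expo N k i) * δ := by
      rw [← havgV]
      unfold avg
      rw [← Finset.mul_sum, mul_smul_comm]
    rw [h2, ← mul_assoc, inv_mul_cancel₀ hP, one_mul]
  have hterm2 : ∀ k ∈ Fintype.piFinset (fun _ : ι => range (2 * N + 1)), expo N k ∉ Λ →
      ‖(∏ i, z i ^ expo N k i)⁻¹ *
        (avg fun v : (ZMod m)ˣ => (if v ∈ V then (1 : ℂ) else 0) * ee ((v : ZMod m) * pr a (expo N k)))‖
        ≤ η := by
    intro k hk1 hkΛ
    rw [norm_mul, norm_inv, norm_prod]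
    have h1 : ∏ i, ‖z i ^ expo N k i‖ = 1 := by
      refine Finset.prod_eq_one fun i _ => ?_
      rw [norm_zpow, hz i, one_zpow]
    rw [h1, inv_one, one_mul]
    refine restricted_avg a s hQ hs v₀ _ hη (hk _ ?_ hkΛ)
    intro i
    have h2 := Finset.mem_range.mp (Fintype.mem_piFinset.mp hk1 i)
    unfold expo
    rw [abs_le]
    constructor <;> omega
  -- lower bound
  have hmid : (fun _ : ι => N) ∈ Fintype.piFinset (fun _ : ι => range (2 * N + 1)) := by
    rw [Fintype.mem_piFinset]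
    intro i
    rw [Finset.mem_range]
    omega
  have hmid0 : expo N (fun _ : ι => N) ∈ Λ := by
    have : expo N (fun _ : ι => N) = 0 := by
      funext i; simp [expo]
    rw [this]
    exact Λ.zero_mem
  have hsumbeta : ∑ k ∈ Fintype.piFinset (fun _ : ι => range (2 * N + 1)), ∏ i, beta N (k i) = 1 := by
    rw [← Finset.prod_univ_sum]
    simp [sum_beta]
  have hlow : (beta N N) ^ Fintype.card ι * δ - η ≤ A.re := by
    have h1 : ∀ k ∈ Fintype.piFinset (fun _ : ι => range (2 * N + 1)),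
        (∏ i, beta N (k i)) * ((if k = fun _ => N then δ else 0) - η) ≤
        ((((∏ i, beta N (k i) : ℝ)) : ℂ) * ((∏ i, z i ^ expo N k i)⁻¹ *
        avg fun v : (ZMod m)ˣ => (if v ∈ V then (1 : ℂ) else 0) * ee ((v : ZMod m) * pr a (expo N k)))).re := by
      intro k hk1
      have hb : 0 ≤ ∏ i, beta N (k i) := Finset.prod_nonneg fun i _ => beta_nonneg _ _
      rw [Complex.re_ofReal_mul]
      refine mul_le_mul_of_nonneg_left ?_ hb
      by_cases hkΛ : expo N k ∈ Λ
      · rw [hterm k hk1 hkΛ, Complex.ofReal_re]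
        split_ifs <;> linarith
      · have h2 := hterm2 k hk1 hkΛ
        have h3 := (abs_le.mp ((Complex.abs_re_le_norm _).trans h2)).1
        have h4 : k ≠ fun _ => N := fun h => hkΛ (h ▸ hmid0)
        rw [if_neg h4]
        linarith
    have h2 := Finset.sum_le_sum h1
    rw [← Complex.re_sum, ← hAexp] at h2
    refine le_trans (le_of_eq ?_) h2
    simp only [mul_sub, Finset.sum_sub_distrib, mul_ite, mul_zero]
    rw [Finset.sum_ite_eq' _ (fun _ : ι => N), if_pos hmid, ← Finset.sum_mul, hsumbeta, one_mul,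
      Finset.prod_const, Finset.card_univ]
  -- upper bound
  have hup : A.re ≤ (1 - ε ^ 2 / 4) ^ N * δ := by
    have h1 : A.re = ((Fintype.card (ZMod m)ˣ : ℝ))⁻¹ * ∑ v ∈ V, F v := by
      rw [hA]
      unfold avg
      rw [Complex.real_smul, Complex.re_ofReal_mul]
      congr 1
      simp only [ite_mul, one_mul, zero_mul]
      rw [Finset.sum_ite_mem, Finset.univ_inter, Complex.re_sum]
      simp
    have h2 : ∀ v ∈ V, F v ≤ (1 - ε ^ 2 / 4) ^ N := by
      intro v _
      obtain ⟨i, hi⟩ := hcon v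
      have h3 : ε ≤ ‖ee ((v : ZMod m) * a i) / z i - 1‖ := by
        have h4 : ee ((v : ZMod m) * a i) / z i - 1 = (ee ((v : ZMod m) * a i) - z i) / z i := by
          field_simp [hz' i]
        rw [h4, norm_div, hz i, div_one]
        exact hi
      have h4 := test_far (hw1 v i) hε.le h3
      rw [hF]
      simp only
      rw [← Finset.mul_prod_erase _ _ (Finset.mem_univ i)]
      have h5 : 0 ≤ (1 + (ee ((v : ZMod m) * a i) / z i).re) / 2 := test_nonneg (hw1 v i)
      have h6 : ∏ x ∈ univ.erase i, ((1 + (ee ((v : ZMod m) * a x) / z x).re) / 2) ^ N ≤ 1 := by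
        refine Finset.prod_le_one (fun j _ => ?_) (fun j _ => ?_)
        · exact pow_nonneg (test_nonneg (hw1 v j)) _
        · exact pow_le_one₀ (test_nonneg (hw1 v j)) (test_le_one (hw1 v j))
      calc ((1 + (ee ((v : ZMod m) * a i) / z i).re) / 2) ^ N *
            ∏ x ∈ univ.erase i, ((1 + (ee ((v : ZMod m) * a x) / z x).re) / 2) ^ N
          ≤ ((1 + (ee ((v : ZMod m) * a i) / z i).re) / 2) ^ N * 1 := by
            gcongr
        _ ≤ (1 - ε ^ 2 / 4) ^ N := by
            rw [mul_one]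
            gcongr
    rw [h1, hδ]
    have h3 := Finset.sum_le_sum h2
    rw [Finset.sum_const, nsmul_eq_mul] at h3
    calc ((Fintype.card (ZMod m)ˣ : ℝ))⁻¹ * ∑ v ∈ V, F v
        ≤ ((Fintype.card (ZMod m)ˣ : ℝ))⁻¹ * (V.card * (1 - ε ^ 2 / 4) ^ N) := by gcongr
      _ = _ := by ring
  have hfin : ((beta N N) ^ Fintype.card ι - (1 - ε ^ 2 / 4) ^ N) * δ ≤ η := by linarith
  have hQr : 0 < (Q : ℝ) ^ Fintype.card R := by positivity
  have hpos : 0 < (beta N N) ^ Fintype.card ι - (1 - ε ^ 2 / 4) ^ N :=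
    lt_of_le_of_lt (by positivity) hgap
  have h1 : ((beta N N) ^ Fintype.card ι - (1 - ε ^ 2 / 4) ^ N) ≤
      ((beta N N) ^ Fintype.card ι - (1 - ε ^ 2 / 4) ^ N) * ((Q : ℝ) ^ Fintype.card R * δ) :=
    le_mul_of_one_le_right hpos.le hδlow
  have h2 : ((beta N N) ^ Fintype.card ι - (1 - ε ^ 2 / 4) ^ N) * ((Q : ℝ) ^ Fintype.card R * δ)
      ≤ η * Q ^ Fintype.card R := by
    calc ((beta N N) ^ Fintype.card ι - (1 - ε ^ 2 / 4) ^ N) * ((Q : ℝ) ^ Fintype.card R * δ)
        = (((beta N N) ^ Fintype.card ι - (1 - ε ^ 2 / 4) ^ N) * δ) * (Q : ℝ) ^ Fintype.card R := by ring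
      _ ≤ η * Q ^ Fintype.card R := by gcongr
  linarith

end

end Pool.Agent.Lib.MP_386e47_ag_h1
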