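import Mathlib
import Pool.Agent.Lib.MP_386e47_ag_h1.Core

/-!
Fractional parts through the argument.
-/

set_option autoImplicit false

namespace Pool.Agent.Lib.MP_386e47_ag_h1

open Finset
open Pool.Agent.Lib.MP_938ce2_ag_h85f (ee kap avg ee_add ee_zero norm_ee norm_kap_le card_units_pos)

/-- the fractional part of the angle, for a point of the circle other than `1` -/
noncomputable def FF (w : ℂ) : ℝ := (Complex.arg (-w) + Real.pi) / (2 * Real.pi)

lemma FF_exp {x : ℝ} (hx : ∀ k : ℤ, x ≠ k) :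
    FF (Complex.exp ((2 * Real.pi * x : ℝ) * Complex.I)) = Int.fract x := by
  have hf0 : 0 < Int.fract x := by
    rcases (Int.fract_nonneg x).lt_or_eq with h | h
    · exact h
    · exfalso
      have h1 := Int.self_sub_fract x
      rw [← h, sub_zero] at h1
      exact hx _ h1
  have hf1 := Int.fract_lt_one x
  have h1 : -Complex.exp ((2 * Real.pi * x : ℝ) * Complex.I)
      = Complex.exp (((2 * Real.pi * Int.fract x - Real.pi : ℝ) : ℂ) * Complex.I) := by
    have h2 : (((2 * Real.pi * Int.fract x - Real.pi : ℝ) : ℂ) * Complex.I)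
        = ((2 * Real.pi * x : ℝ) * Complex.I) - Real.pi * Complex.I
          - (⌊x⌋ : ℂ) * (2 * Real.pi * Complex.I) := by
      have h3 : Int.fract x = x - ⌊x⌋ := rfl
      rw [h3]
      push_cast
      ring
    rw [h2, Complex.exp_sub, Complex.exp_sub, Complex.exp_pi_mul_I,
      Complex.exp_int_mul_two_pi_mul_I, div_one, div_neg, div_one]
  have hpi := Real.pi_pos
  unfold FF
  rw [h1, Complex.arg_exp_mul_I, (toIocMod_eq_self _).mpr, sub_add_cancel]
  · field_simp
  · constructor
    · nlinarith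
    · nlinarith

lemma FF_continuousAt {w : ℂ} (hw : ‖w‖ = 1) (h : w ≠ 1) : ContinuousAt FF w := by
  unfold FF
  have h1 : ContinuousAt (fun w : ℂ => Complex.arg (-w)) w := by
    have h2 : -w ∈ Complex.slitPlane := by
      rw [Complex.mem_slitPlane_iff]
      by_contra hcon
      push Not at hcon
      obtain ⟨h3, h4⟩ := hcon
      simp only [Complex.neg_re, Complex.neg_im, neg_eq_zero] at h3 h4
      apply h
      have h5 : w.re * w.re + w.im * w.im = 1 := by
        have := Complex.normSq_eq_norm_sq w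
        rw [hw, Complex.normSq_apply] at this
        linarith
      rw [h4] at h5
      have h6 : w.re = 1 := by nlinarith
      exact Complex.ext (by simpa using h6) (by simpa using h4)
    exact (Complex.continuousAt_arg h2).comp continuousAt_neg
  exact (h1.add continuousAt_const).div_const _

section

variable {m : ℕ} [NeZero m]

lemma ee_eq_exp (y : ZMod m) :
    ee y = Complex.exp ((2 * Real.pi * ((y.val : ℝ) / m) : ℝ) * Complex.I) := by
  unfold ee
  rw [ZMod.stdAddChar_apply, ZMod.toCircle_apply]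
  congr 1
  push_cast
  ring

lemma val_div_ne_int {y : ZMod m} (hy : y ≠ 0) (k : ℤ) : ((y.val : ℝ) / m) ≠ k := by
  intro h
  have hm : (0 : ℝ) < m := by exact_mod_cast Nat.pos_of_ne_zero (NeZero.ne m)
  rw [div_eq_iff hm.ne'] at h
  have h1 : (y.val : ℤ) = k * m := by exact_mod_cast h
  have h2 := ZMod.val_lt y
  have h3 : y.val ≠ 0 := by rwa [Ne, ZMod.val_eq_zero]
  have h4 : 0 < k := by
    by_contra h5
    push Not at h5
    have : k * m ≤ 0 := mul_nonpos_of_nonpos_of_nonneg h5 (by positivity)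
    omega
  have h5 : (m : ℤ) ≤ k * m := by nlinarith
  omega

lemma fract_val_div (y : ZMod m) : Int.fract ((y.val : ℝ) / m) = (y.val : ℝ) / m := by
  have hm : (0 : ℝ) < m := by exact_mod_cast Nat.pos_of_ne_zero (NeZero.ne m)
  rw [Int.fract_eq_self]
  refine ⟨by positivity, ?_⟩
  rw [div_lt_one hm]
  exact_mod_cast ZMod.val_lt y

lemma FF_ee {y : ZMod m} (hy : y ≠ 0) : FF (ee y) = (y.val : ℝ) / m := by
  rw [ee_eq_exp, FF_exp (val_div_ne_int hy), fract_val_div]

/-- a sum of residues which vanishes has an integral sum of representatives -/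
lemma exists_int_of_sum_eq_zero {α : Type} (s : Finset α) (f : α → ZMod m) (h : ∑ i ∈ s, f i = 0) :
    ∃ k : ℕ, k ≤ s.card ∧ ∑ i ∈ s, ((f i).val : ℝ) / m = k := by
  have hm : (0 : ℝ) < m := by exact_mod_cast Nat.pos_of_ne_zero (NeZero.ne m)
  have h1 : ((∑ i ∈ s, (f i).val : ℕ) : ZMod m) = 0 := by
    push_cast
    rw [← h]
    exact Finset.sum_congr rfl fun i _ => ZMod.natCast_zmod_val _
  rw [ZMod.natCast_eq_zero_iff] at h1
  obtain ⟨k, hk⟩ := h1
  have h2 : ∑ i ∈ s, ((f i).val : ℝ) / m = k := by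
    rw [← Finset.sum_div, div_eq_iff hm.ne', mul_comm]
    exact_mod_cast hk
  refine ⟨k, ?_, h2⟩
  have h3 : ∑ i ∈ s, ((f i).val : ℝ) / m ≤ ∑ _i ∈ s, (1 : ℝ) := by
    refine Finset.sum_le_sum fun i _ => ?_
    rw [div_le_one hm]
    exact_mod_cast (ZMod.val_lt (f i)).le
  rw [h2, Finset.sum_const, nsmul_eq_mul, mul_one] at h3
  exact_mod_cast h3

end

end Pool.Agent.Lib.MP_386e47_ag_h1
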