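import Mathlib

/-!
Integral linear forms which vanish on a lattice of infinite index.
-/

set_option autoImplicit false

namespace Pool.Agent.Lib.MP_386e47_ag_h1

open Finset

/-- a rational combination of lattice points has a multiple in the lattice -/
lemma exists_mult_of_mem_span {ι : Type} [Fintype ι] (Λ : AddSubgroup (ι → ℤ)) {x : ι → ℚ}
    (hx : x ∈ Submodule.span ℚ ((fun (χ : ι → ℤ) (i : ι) => (χ i : ℚ)) '' (Λ : Set (ι → ℤ)))) :
    ∃ k : ℕ, 0 < k ∧ ∃ χ ∈ Λ, ∀ i, (k : ℚ) * x i = χ i := by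
  induction hx using Submodule.span_induction with
  | mem x h =>
    obtain ⟨χ, hχ, rfl⟩ := h
    exact ⟨1, one_pos, χ, hχ, fun i => by simp⟩
  | zero => exact ⟨1, one_pos, 0, Λ.zero_mem, fun i => by simp⟩
  | add x y _ _ h1 h2 =>
    obtain ⟨k, hk, χ, hχ, h3⟩ := h1
    obtain ⟨l, hl, ψ, hψ, h4⟩ := h2
    refine ⟨k * l, Nat.mul_pos hk hl, (l : ℤ) • χ + (k : ℤ) • ψ,
      Λ.add_mem (Λ.zsmul_mem hχ _) (Λ.zsmul_mem hψ _), fun i => ?_⟩
    simp only [Pi.add_apply, Pi.smul_apply, smul_eq_mul]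
    push_cast
    rw [← h3 i, ← h4 i]
    ring
  | smul q x _ h =>
    obtain ⟨k, hk, χ, hχ, h3⟩ := h
    refine ⟨k * q.den, Nat.mul_pos hk q.pos, q.num • χ, Λ.zsmul_mem hχ _, fun i => ?_⟩
    simp only [Pi.smul_apply, smul_eq_mul]
    push_cast
    rw [← h3 i, ← Rat.mul_den_eq_num q]
    ring

lemma exists_orth {ι : Type} [Fintype ι] [DecidableEq ι] (Λ : AddSubgroup (ι → ℤ))
    (h : ∃ x : ι → ℤ, ∀ k : ℕ, 0 < k → k • x ∉ Λ) :
    ∃ c : ι → ℤ, c ≠ 0 ∧ ∀ χ ∈ Λ, ∑ i, χ i * c i = 0 := by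
  obtain ⟨x, hx⟩ := h
  set V := Submodule.span ℚ ((fun (χ : ι → ℤ) (i : ι) => (χ i : ℚ)) '' (Λ : Set (ι → ℤ))) with hV
  have hxV : (fun i => (x i : ℚ)) ∉ V := by
    intro hmem
    obtain ⟨k, hk, χ, hχ, h1⟩ := exists_mult_of_mem_span Λ hmem
    refine hx k hk ?_
    have h2 : k • x = χ := by
      funext i
      have := h1 i
      simp only [Pi.smul_apply, nsmul_eq_mul]
      exact_mod_cast this
    rw [h2]
    exact hχ
  obtain ⟨f, hf, hfV⟩ := Submodule.exists_le_ker_of_notMem hxV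
  obtain ⟨d, hd⟩ := IsLocalization.exist_integer_multiples_of_finite (nonZeroDivisors ℤ)
    (fun i : ι => f (Pi.single i (1 : ℚ)))
  choose c hc using hd
  have hd0 : ((d : ℤ) : ℚ) ≠ 0 := by
    have := nonZeroDivisors.ne_zero d.2
    exact_mod_cast this
  have hc' : ∀ i, (c i : ℚ) = (d : ℤ) * f (Pi.single i (1 : ℚ)) := by
    intro i
    have := hc i
    rw [zsmul_eq_mul] at this
    simpa using this
  have hexp : ∀ y : ι → ℚ, ((d : ℤ) : ℚ) * f y = ∑ i, y i * c i := by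
    intro y
    have h1 : y = ∑ i, y i • (Pi.single i (1 : ℚ) : ι → ℚ) := by
      funext j
      simp [Finset.sum_apply, Pi.single_apply]
    conv_lhs => rw [h1]
    rw [map_sum, Finset.mul_sum]
    refine Finset.sum_congr rfl fun i _ => ?_
    rw [map_smul, smul_eq_mul, hc']
    ring
  refine ⟨c, ?_, ?_⟩
  · rintro rfl
    apply hf
    have h1 := hexp (fun i => (x i : ℚ))
    simp only [Pi.zero_apply, Int.cast_zero, mul_zero, Finset.sum_const_zero] at h1
    exact (mul_eq_zero.mp h1).resolve_left hd0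
  · intro χ hχ
    have h1 : f (fun i => (χ i : ℚ)) = 0 := by
      have : (fun i => (χ i : ℚ)) ∈ V := Submodule.subset_span ⟨χ, hχ, rfl⟩
      exact hfV this
    have h2 := hexp (fun i => (χ i : ℚ))
    rw [h1, mul_zero] at h2
    exact_mod_cast h2.symm

end Pool.Agent.Lib.MP_386e47_ag_h1
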