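import Mathlib
import Pool.Agent.Lib.MP_386e47_ag_h1.Core2
import Pool.Agent.Lib.MP_386e47_ag_h1.Frac
import Pool.Agent.Lib.MP_386e47_ag_h1.Orth

/-!
The deformation theorem.
-/

set_option autoImplicit false

namespace Pool.Agent.Lib.MP_386e47_ag_h1

open Finset Filter
open Pool.Agent.Lib.MP_938ce2_ag_h85f (ee kap avg ee_add ee_zero norm_ee norm_kap_le card_units_pos)

/-- a tuple of non-zero residues modulo `m`, with vanishing sum over every block, of exact
order `m` -/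
structure Datum {ι κ : Type} [Fintype ι] [DecidableEq κ] (b : ι → κ) where
  m : ℕ
  ne : NeZero m
  a : ι → ZMod m
  a_ne : ∀ i, a i ≠ 0
  blk : ∀ j, ∑ i with b i = j, a i = 0
  ord : ∀ d : ℕ, 0 < d → (∀ i, (d : ZMod m) * a i = 0) → m ≤ d

attribute [instance] Datum.ne

section

variable {ι κ : Type} [Fintype ι] [DecidableEq κ] {b : ι → κ}

/-- the vector of the sums of the fractional parts over the blocks, for the conjugate `u` -/
noncomputable def Datum.val (D : Datum b) (u : (ZMod D.m)ˣ) : κ → ℝ := fun j =>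
  ∑ i with b i = j, ((((u : ZMod D.m) * D.a i).val : ℝ) / D.m)

/-- the point of the line through the conjugate `u` with direction `c` -/
noncomputable def Datum.pt (D : Datum b) (c : ι → ℤ) (u : (ZMod D.m)ˣ) (t : ℝ) (i : ι) : ℝ :=
  (((u : ZMod D.m) * D.a i).val : ℝ) / D.m + t * c i

/-- all Hodge vectors of the points of the lines with direction `c` are Hodge vectors of
conjugates -/
def Datum.Good (D : Datum b) (c : ι → ℤ) : Prop :=
  ∀ (u : (ZMod D.m)ˣ) (t : ℝ), (∀ i, ∀ k : ℤ, D.pt c u t i ≠ k) →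
    ∃ v : (ZMod D.m)ˣ, ∀ j, ∑ i with b i = j, Int.fract (D.pt c u t i) = D.val v j

lemma Datum.val_mem (D : Datum b) (u : (ZMod D.m)ˣ) (j : κ) :
    ∃ k : ℕ, k ≤ Fintype.card ι ∧ D.val u j = k := by
  have h1 : ∑ i with b i = j, ((u : ZMod D.m) * D.a i) = 0 := by
    rw [← Finset.mul_sum, D.blk, mul_zero]
  obtain ⟨k, hk, h2⟩ := exists_int_of_sum_eq_zero _ _ h1
  exact ⟨k, hk.trans (Finset.card_le_univ _), h2⟩

lemma Datum.mul_ne (D : Datum b) (u : (ZMod D.m)ˣ) (i : ι) : (u : ZMod D.m) * D.a i ≠ 0 := by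
  intro h
  exact D.a_ne i ((Units.mul_right_eq_zero u).mp h)

/-- the lattice of relations which hold up to bounded torsion along the ultrafilter -/
def relLat (D : ℕ → Datum b) (U : Ultrafilter ℕ) : AddSubgroup (ι → ℤ) where
  carrier := {χ | ∃ Q : ℕ, 0 < Q ∧ ∀ᶠ n in (U : Filter ℕ), Q • pr (D n).a χ = 0}
  zero_mem' := ⟨1, one_pos, by simp⟩
  add_mem' := by
    rintro χ ψ ⟨Q, hQ, h⟩ ⟨Q', hQ', h'⟩
    refine ⟨Q * Q', Nat.mul_pos hQ hQ', ?_⟩
    filter_upwards [h, h'] with n h1 h2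
    rw [map_add, smul_add, mul_comm Q Q', mul_smul, h1, smul_zero, mul_comm Q' Q, mul_smul, h2,
      smul_zero, add_zero]
  neg_mem' := by
    rintro χ ⟨Q, hQ, h⟩
    refine ⟨Q, hQ, ?_⟩
    filter_upwards [h] with n h1
    rw [map_neg, smul_neg, h1, neg_zero]

lemma mem_relLat {D : ℕ → Datum b} {U : Ultrafilter ℕ} {χ : ι → ℤ} :
    χ ∈ relLat D U ↔ ∃ Q : ℕ, 0 < Q ∧ ∀ᶠ n in (U : Filter ℕ), Q • pr (D n).a χ = 0 := Iff.rfl

lemma order_large {D : ℕ → Datum b} {U : Ultrafilter ℕ} {χ : ι → ℤ} (h : χ ∉ relLat D U) (d : ℕ) :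
    ∀ᶠ n in (U : Filter ℕ), d ≤ addOrderOf (pr (D n).a χ) := by
  have h1 : ∀ Q ∈ Finset.range d, ∀ᶠ n in (U : Filter ℕ), 0 < Q → Q • pr (D n).a χ ≠ 0 := by
    intro Q _
    by_cases hQ : 0 < Q
    · have h2 : ¬ ∀ᶠ n in (U : Filter ℕ), Q • pr (D n).a χ = 0 := fun h3 => h ⟨Q, hQ, h3⟩
      filter_upwards [Ultrafilter.eventually_not.mpr h2] with n hn _
      exact hn
    · exact Filter.Eventually.of_forall fun n h => absurd h hQ
  have h2 := (Filter.eventually_all_finset (Finset.range d)).mpr h1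
  filter_upwards [h2] with n hn
  by_contra h3
  push Not at h3
  exact hn _ (Finset.mem_range.mpr h3) (addOrderOf_pos _) (addOrderOf_nsmul_eq_zero _)

lemma blk_mem_relLat [DecidableEq ι] (D : ℕ → Datum b) (U : Ultrafilter ℕ) (j : κ) :
    (fun i => if b i = j then (1 : ℤ) else 0) ∈ relLat D U := by
  refine ⟨1, one_pos, Filter.Eventually.of_forall fun n => ?_⟩
  rw [one_smul, pr_apply, ← (D n).blk j, Finset.sum_filter]
  refine Finset.sum_congr rfl fun i _ => ?_
  split_ifs <;> simp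

end

/-- the directions of size at most `n` -/
noncomputable def dirs {ι κ : Type} [Fintype ι] [DecidableEq ι] [Fintype κ] [DecidableEq κ]
    (b : ι → κ) (n : ℕ) : Finset (ι → ℤ) :=
  (Fintype.piFinset fun _ : ι => Finset.Icc (-(n : ℤ)) n).filter fun c =>
    c ≠ 0 ∧ ∀ j, ∑ i with b i = j, c i = 0

theorem deform {ι κ : Type} [Fintype ι] [DecidableEq ι] [Fintype κ] [DecidableEq κ] (b : ι → κ) :
    ∃ (M₀ : ℕ) (C : Finset (ι → ℤ)), (∀ c ∈ C, c ≠ 0 ∧ ∀ j, ∑ i with b i = j, c i = 0) ∧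
      ∀ D : Datum b, M₀ < D.m → ∃ c ∈ C, D.Good c := by
  classical
  by_contra hcon
  have hcon' : ∀ n : ℕ, ∃ D : Datum b, n < D.m ∧ ∀ c ∈ dirs b n, ¬ D.Good c := by
    intro n
    by_contra h1
    push Not at h1
    refine hcon ⟨n, dirs b n, ?_, h1⟩
    intro c hc
    exact (Finset.mem_filter.mp hc).2
  choose D hD hbad using hcon'
  set U : Ultrafilter ℕ := Filter.hyperfilter ℕ with hU
  have hlarge : ∀ d : ℕ, ∀ᶠ n in (U : Filter ℕ), d < (D n).m := by
    intro d
    have : ∀ᶠ n in (atTop : Filter ℕ), d < (D n).m := by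
      filter_upwards [Filter.eventually_ge_atTop d] with n hn
      exact lt_of_le_of_lt hn (hD n)
    exact Nat.hyperfilter_le_atTop this
  -- the lattice has infinite index
  have hprop : ∃ x : ι → ℤ, ∀ k : ℕ, 0 < k → k • x ∉ relLat D U := by
    by_contra h1
    push Not at h1
    have h2 : ∀ i : ι, ∃ Q : ℕ, 0 < Q ∧ ∀ᶠ n in (U : Filter ℕ), Q • (D n).a i = 0 := by
      intro i
      obtain ⟨k, hk, h3⟩ := h1 (Pi.single i 1)
      obtain ⟨Q, hQ, h4⟩ := h3
      refine ⟨Q * k, Nat.mul_pos hQ hk, ?_⟩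
      filter_upwards [h4] with n hn
      rw [map_nsmul, ← mul_smul] at hn
      have h5 : pr (D n).a (Pi.single i 1) = (D n).a i := by
        rw [pr_apply]
        simp [Pi.single_apply]
      rwa [h5] at hn
    choose Q hQ h3 using h2
    have h4 : ∀ᶠ n in (U : Filter ℕ), ∀ i, Q i • (D n).a i = 0 := Filter.eventually_all.mpr h3
    obtain ⟨n, hn, hn2⟩ := (h4.and (hlarge (∏ i, Q i))).exists
    have h5 := (D n).ord (∏ i, Q i) (Finset.prod_pos fun i _ => hQ i) ?_
    · omega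
    · intro i
      rw [← nsmul_eq_mul, ← Finset.mul_prod_erase _ _ (Finset.mem_univ i), mul_comm, mul_smul,
        hn i, smul_zero]
  obtain ⟨c, hc0, hc⟩ := exists_orth (relLat D U) hprop
  have hcblk : ∀ j, ∑ i with b i = j, c i = 0 := by
    intro j
    have h1 := hc _ (blk_mem_relLat D U j)
    rw [Finset.sum_filter]
    refine Eq.trans (Finset.sum_congr rfl fun i _ => ?_) h1
    split_ifs <;> simp
  -- generators of the lattice
  obtain ⟨S, hS⟩ : ∃ S : Finset (ι → ℤ), AddSubgroup.closure (S : Set (ι → ℤ)) = relLat D U := by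
    obtain ⟨S, hS⟩ := (Submodule.fg_iff_addSubgroup_fg
      (AddSubgroup.toIntSubmodule (relLat D U))).mp (IsNoetherian.noetherian _)
    exact ⟨S, hS⟩
  let s : S → ι → ℤ := Subtype.val
  have hsr : AddSubgroup.closure (Set.range s) = relLat D U := by
    rw [← hS]
    congr 1
    exact Subtype.range_coe
  have hsmem : ∀ ρ : S, s ρ ∈ relLat D U := fun ρ => hS ▸ AddSubgroup.subset_closure ρ.2
  obtain ⟨Q, hQ, hQev⟩ : ∃ Q : ℕ, 0 < Q ∧
      ∀ᶠ n in (U : Filter ℕ), ∀ ρ, Q • pr (D n).a (s ρ) = 0 := by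
    choose Q hQ h2 using hsmem
    refine ⟨∏ ρ, Q ρ, Finset.prod_pos fun ρ _ => hQ ρ, ?_⟩
    filter_upwards [Filter.eventually_all.mpr h2] with n hn ρ
    rw [← Finset.mul_prod_erase _ _ (Finset.mem_univ ρ), mul_comm, mul_smul, hn ρ, smul_zero]
  -- the two finite invariants
  let P : ℕ → Set (S → ℂ) := fun n => Set.range fun v : (ZMod (D n).m)ˣ => fun ρ : S =>
    ee ((v : ZMod (D n).m) * pr (D n).a (s ρ))
  let W : ℕ → Set (κ → ℝ) := fun n => Set.range fun v : (ZMod (D n).m)ˣ => (D n).val v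
  obtain ⟨A, hA⟩ : ∃ A : Set (S → ℂ), ∀ᶠ n in (U : Filter ℕ), P n = A := by
    have hfin : ({f : S → ℂ | ∀ ρ, f ρ ∈ {w : ℂ | w ^ Q = 1}}).Finite := by
      refine Set.Finite.pi' fun ρ => ?_
      refine Set.Finite.subset (Polynomial.nthRootsFinset Q (1 : ℂ)).finite_toSet ?_
      intro w hw
      rw [Finset.mem_coe, Polynomial.mem_nthRootsFinset hQ]
      exact hw
    have h2 : ∀ᶠ n in (U : Filter ℕ), ∃ A ∈ {A : Set (S → ℂ) |
        A ⊆ {f : S → ℂ | ∀ ρ, f ρ ∈ {w : ℂ | w ^ Q = 1}}}, P n = A := by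
      filter_upwards [hQev] with n hn
      refine ⟨P n, ?_, rfl⟩
      rintro f ⟨v, rfl⟩ ρ
      have h3 := ee_zsmul (Q : ℤ) ((v : ZMod (D n).m) * pr (D n).a (s ρ))
      rw [zpow_natCast] at h3
      change _ ^ Q = 1
      rw [← h3, Int.cast_natCast, ← nsmul_eq_mul, ← mul_smul_comm, hn ρ, mul_zero, ee_zero]
    obtain ⟨A, -, hA⟩ := (Ultrafilter.eventually_exists_mem_iff hfin.finite_subsets).mp h2
    exact ⟨A, hA⟩
  obtain ⟨B, hB⟩ : ∃ B : Set (κ → ℝ), ∀ᶠ n in (U : Filter ℕ), W n = B := by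
    have hfin : ({f : κ → ℝ | ∀ j, f j ∈ {w : ℝ | ∃ k : ℕ, k ≤ Fintype.card ι ∧ w = k}}).Finite := by
      refine Set.Finite.pi' fun j => ?_
      refine Set.Finite.subset (Set.Finite.image (fun k : ℕ => (k : ℝ))
        (Finset.range (Fintype.card ι + 1)).finite_toSet) ?_
      rintro w ⟨k, hk, rfl⟩
      exact ⟨k, by simpa using Nat.lt_succ_of_le hk, rfl⟩
    have h2 : ∀ᶠ n in (U : Filter ℕ), ∃ B ∈ {B : Set (κ → ℝ) |
        B ⊆ {f : κ → ℝ | ∀ j, f j ∈ {w : ℝ | ∃ k : ℕ, k ≤ Fintype.card ι ∧ w = k}}}, W n = B := by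
      refine Filter.Eventually.of_forall fun n => ⟨W n, ?_, rfl⟩
      rintro f ⟨v, rfl⟩ j
      exact (D n).val_mem v j
    obtain ⟨B, -, hB⟩ := (Ultrafilter.eventually_exists_mem_iff hfin.finite_subsets).mp h2
    exact ⟨B, hB⟩
  -- a level at which the direction `c` fails
  have hcev : ∀ᶠ n in (U : Filter ℕ), c ∈ dirs b n := by
    have h1 : ∀ᶠ n in (atTop : Filter ℕ), c ∈ dirs b n := by
      filter_upwards [Filter.eventually_ge_atTop (∑ i, (c i).natAbs)] with n hn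
      unfold dirs
      rw [Finset.mem_filter, Fintype.mem_piFinset]
      refine ⟨fun i => ?_, hc0, hcblk⟩
      have h2 : (c i).natAbs ≤ ∑ i, (c i).natAbs :=
        Finset.single_le_sum (f := fun i => (c i).natAbs) (fun _ _ => Nat.zero_le _)
          (Finset.mem_univ i)
      rw [Finset.mem_Icc]
      omega
    exact Nat.hyperfilter_le_atTop h1
  obtain ⟨n', hA', hB', hcn, hQ'⟩ := (hA.and (hB.and (hcev.and hQev))).exists
  have hb := hbad n' c hcn
  unfold Datum.Good at hb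
  push Not at hb
  obtain ⟨u, t, hint, hno⟩ := hb
  set x : ι → ℝ := (D n').pt c u t with hx
  set z : ι → ℂ := fun i => Complex.exp ((2 * Real.pi * x i : ℝ) * Complex.I) with hzdef
  have hz : ∀ i, ‖z i‖ = 1 := fun i => Complex.norm_exp_ofReal_mul_I _
  have hz1 : ∀ i, z i ≠ 1 := by
    intro i h
    rw [hzdef] at h
    simp only at h
    rw [Complex.exp_eq_one_iff] at h
    obtain ⟨k, hk⟩ := h
    apply hint i k
    have h1 : ((2 * Real.pi * x i : ℝ) : ℂ) = ((k * (2 * Real.pi) : ℝ) : ℂ) := by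
      have h2 : ((k * (2 * Real.pi) : ℝ) : ℂ) * Complex.I = (k : ℂ) * (2 * Real.pi * Complex.I) := by
        push_cast; ring
      rw [← h2] at hk
      exact mul_right_cancel₀ Complex.I_ne_zero hk
    have h2 : 2 * Real.pi * x i = k * (2 * Real.pi) := by exact_mod_cast h1
    have h3 : (0 : ℝ) < 2 * Real.pi := by positivity
    have h4 : (2 * Real.pi) * x i = (2 * Real.pi) * k := by rw [h2]; ring
    exact mul_left_cancel₀ h3.ne' h4
  have hFz : ∀ i, FF (z i) = Int.fract (x i) := fun i => FF_exp (hint i)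
  have hzint : ∀ j, ∃ k : ℤ, ∑ i with b i = j, Int.fract (x i) = k := by
    intro j
    obtain ⟨k, -, hk⟩ := (D n').val_mem u j
    refine ⟨k - ∑ i with b i = j, ⌊x i⌋, ?_⟩
    have h1 : ∀ i, Int.fract (x i) = x i - ⌊x i⌋ := fun i => rfl
    simp only [h1, Finset.sum_sub_distrib]
    push_cast
    congr 1
    have h2 : ∑ i with b i = j, x i = (D n').val u j + t * ∑ i with b i = j, (c i : ℝ) := by
      rw [hx, Finset.mul_sum]
      unfold Datum.pt Datum.val
      rw [Finset.sum_add_distrib]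
    have h3 : ∑ i with b i = j, (c i : ℝ) = 0 := by exact_mod_cast hcblk j
    rw [h2, h3, mul_zero, add_zero, hk]
  -- the radius
  obtain ⟨ε, hε, hε1, hεF⟩ : ∃ ε : ℝ, 0 < ε ∧ ε ≤ 1 ∧ ∀ i, ∀ w : ℂ, ‖w - z i‖ < ε →
      |FF w - FF (z i)| < 1 / (Fintype.card ι + 1) := by
    have h1 : ∀ i, ∃ δ > 0, ∀ w : ℂ, dist w (z i) < δ →
        dist (FF w) (FF (z i)) < 1 / (Fintype.card ι + 1) := fun i =>
      Metric.continuousAt_iff.mp (FF_continuousAt (hz i) (hz1 i)) _ (by positivity)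
    choose δ hδ h2 using h1
    have h3 : ∀ᶠ ε in nhdsWithin (0 : ℝ) (Set.Ioi 0), ∀ i, ε ≤ δ i :=
      Filter.eventually_all.mpr fun i => by
        filter_upwards [Ioc_mem_nhdsGT (hδ i)] with ε hε
        exact hε.2
    obtain ⟨ε, h4, h5⟩ := (h3.and (Ioc_mem_nhdsGT (zero_lt_one : (0 : ℝ) < 1))).exists
    refine ⟨ε, h5.1, h5.2, fun i w hw => ?_⟩
    have h6 := h2 i w (by rw [dist_eq_norm]; exact hw.trans_le (h4 i))
    rwa [Real.dist_eq] at h6
  obtain ⟨N, hN⟩ := exists_gap (Fintype.card ι) (δ := ε ^ 2 / 4) (by positivity) (by nlinarith)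
  set gap : ℝ := (beta N N) ^ Fintype.card ι - (1 - ε ^ 2 / 4) ^ N with hgap
  have hgap0 : 0 < gap := by rw [hgap]; linarith
  have hQr : (0 : ℝ) < (Q : ℝ) ^ Fintype.card S := by positivity
  set η : ℝ := gap / (2 * (Q : ℝ) ^ Fintype.card S) with hη
  have hη0 : 0 < η := by positivity
  obtain ⟨d, hd⟩ := kap_small hη0
  have hkev : ∀ᶠ n in (U : Filter ℕ), ∀ χ ∈ Fintype.piFinset fun _ : ι => Finset.Icc (-(N : ℤ)) N,
      ∀ J ∈ Fintype.piFinset (fun _ : S => Finset.range Q), χ ∉ relLat D U →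
      ‖kap (pr (D n).a (χ + comb s J))‖ ≤ η := by
    rw [Filter.eventually_all_finset]
    intro χ _
    rw [Filter.eventually_all_finset]
    intro J _
    by_cases hχ : χ ∈ relLat D U
    · exact Filter.Eventually.of_forall fun n h => absurd hχ h
    · have h1 : comb s J ∈ relLat D U := by
        unfold comb
        exact AddSubgroup.sum_mem _ fun ρ _ => AddSubgroup.zsmul_mem _ (hsmem ρ) _
      have h2 : χ + comb s J ∉ relLat D U := fun h3 =>
        hχ (by simpa using (relLat D U).sub_mem h3 h1)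
      filter_upwards [order_large h2 d] with n hn _
      exact hd _ _ hn
  obtain ⟨n, hk, hA2, hB2, hQ2⟩ := (hkev.and (hA.and (hB.and hQev))).exists
  -- the pattern of `u` occurs at the level `n`
  have hpat : (fun ρ : S => ee ((u : ZMod (D n').m) * pr (D n').a (s ρ))) ∈ P n := by
    rw [hA2, ← hA']
    exact ⟨u, rfl⟩
  obtain ⟨v₀, hv₀⟩ := hpat
  have hz0 : ∀ ρ : S, ∏ i, z i ^ s ρ i = ee ((v₀ : ZMod (D n).m) * pr (D n).a (s ρ)) := by
    intro ρ
    have h1 : ee ((v₀ : ZMod (D n).m) * pr (D n).a (s ρ))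
        = ee ((u : ZMod (D n').m) * pr (D n').a (s ρ)) := congrFun hv₀ ρ
    rw [h1, ee_mul_pr]
    have h2 : ∀ i, z i ^ s ρ i = ee ((u : ZMod (D n').m) * (D n').a i) ^ s ρ i *
        Complex.exp ((2 * Real.pi * t * ((s ρ i : ℝ) * (c i : ℝ)) : ℝ) * Complex.I) := by
      intro i
      rw [hzdef]
      simp only
      rw [← Complex.exp_int_mul, ee_eq_exp, ← Complex.exp_int_mul, ← Complex.exp_add]
      congr 1
      rw [hx]
      unfold Datum.pt
      push_cast
      ring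
    rw [Finset.prod_congr rfl fun i _ => h2 i, Finset.prod_mul_distrib, ← Complex.exp_sum,
      ← Finset.sum_mul]
    have h3 : ∑ i, ((2 * Real.pi * t * ((s ρ i : ℝ) * (c i : ℝ)) : ℝ) : ℂ) = 0 := by
      rw [← Complex.ofReal_sum, ← Finset.mul_sum]
      have h4 : ∑ i, ((s ρ i : ℝ) * (c i : ℝ)) = 0 := by exact_mod_cast hc _ (hsmem ρ)
      rw [h4, mul_zero, Complex.ofReal_zero]
    rw [h3, zero_mul, Complex.exp_zero, mul_one]
  obtain ⟨v, hv⟩ := core (D n).a s hQ hQ2 v₀ z hz hz0 N hε hε1 hη0.le (by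
    intro χ hχ hχ2 J hJ
    rw [hsr] at hχ2
    refine hk χ ?_ J hJ hχ2
    rw [Fintype.mem_piFinset]
    intro i
    rw [Finset.mem_Icc]
    exact abs_le.mp (hχ i)) (by
    rw [← hgap, hη, div_mul_eq_mul_div, div_lt_iff₀ (by positivity)]
    nlinarith)
  -- conclusion
  have hval : ∀ j, ∑ i with b i = j, Int.fract (x i) = (D n).val v j := by
    intro j
    obtain ⟨k, hk⟩ := hzint j
    obtain ⟨l, -, hl⟩ := (D n).val_mem v j
    have h1 : |(D n).val v j - ∑ i with b i = j, Int.fract (x i)| < 1 := by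
      unfold Datum.val
      rw [← Finset.sum_sub_distrib]
      refine (Finset.abs_sum_le_sum_abs _ _).trans_lt ?_
      have h2 : ∀ i ∈ Finset.univ.filter (fun i => b i = j),
          |((((v : ZMod (D n).m) * (D n).a i).val : ℝ) / (D n).m) - Int.fract (x i)|
          ≤ 1 / (Fintype.card ι + 1) := by
        intro i _
        have h3 := hεF i _ (hv i)
        rw [FF_ee ((D n).mul_ne v i), hFz] at h3
        exact h3.le
      refine (Finset.sum_le_sum h2).trans_lt ?_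
      rw [Finset.sum_const, nsmul_eq_mul, mul_one_div, div_lt_one (by positivity)]
      have h3 : ((Finset.univ.filter (fun i => b i = j)).card : ℝ) ≤ Fintype.card ι := by
        exact_mod_cast Finset.card_le_univ _
      linarith
    rw [hk, hl] at h1 ⊢
    have h2 : |(l : ℤ) - k| < 1 := by exact_mod_cast h1
    have h3 : (l : ℤ) = k := by
      have := Int.abs_lt_one_iff.mp h2
      omega
    exact_mod_cast h3.symm
  have hmem : (D n).val v ∈ W n' := by
    rw [hB', ← hB2]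
    exact ⟨v, rfl⟩
  obtain ⟨v', hv'⟩ := hmem
  obtain ⟨j, hj⟩ := hno v'
  apply hj
  rw [hval j]
  exact (congrFun hv' j).symm

end Pool.Agent.Lib.MP_386e47_ag_h1
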