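import Mathlib
import Pool.Agent.Lib.MP_938ce2_ag_h85f.Count

/-!
The mean square of the sawtooth function over the unit multiples of a point of large order.
-/

set_option autoImplicit false
set_option linter.unusedSectionVars false

namespace Pool.Agent.Lib.MP_386e47_ag_h1

open Finset
open Pool.Agent.Lib.MP_938ce2_ag_h85f

/-- the second Bernoulli polynomial -/
lemma bern_two (x : ℝ) :
    (Polynomial.map (algebraMap ℚ ℝ) (Polynomial.bernoulli (2 * 1))).eval x = x ^ 2 - x + 1 / 6 := by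
  simp only [mul_one, Polynomial.bernoulli, Finset.sum_range_succ, Finset.sum_range_zero, zero_add,
    Polynomial.map_add, Polynomial.map_monomial, Polynomial.eval_add, Polynomial.eval_monomial]
  rw [_root_.bernoulli_zero, _root_.bernoulli_one, _root_.bernoulli_two]
  norm_num
  ring

section

variable {m : ℕ} [NeZero m]

lemma re_ee_nat (n : ℕ) (b : ZMod m) :
    (ee ((n : ZMod m) * b)).re = Real.cos (2 * Real.pi * n * ((b.val : ℝ) / m)) := by
  have h1 := ee_int_mul (m := m) (n : ℤ) b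
  rw [Int.cast_natCast] at h1
  rw [h1]
  have h2 : (2 * Real.pi * Complex.I * ((((n : ℤ) : ℂ)) * (((b.val : ℝ) / m : ℝ) : ℂ)) : ℂ)
      = ((2 * Real.pi * n * ((b.val : ℝ) / m) : ℝ) : ℂ) * Complex.I := by
    push_cast
    ring
  rw [h2, Complex.exp_ofReal_mul_I_re]

/-- the square of the sawtooth function as a series -/
lemma hasSum_saw_sq (b : ZMod m) :
    HasSum (fun n : ℕ => 1 / Real.pi ^ 2 * (1 / (n : ℝ) ^ 2 * (ee ((n : ZMod m) * b)).re))
      (saw b ^ 2 - 1 / 12) := by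
  have hx : ((b.val : ℝ) / m) ∈ Set.Icc (0 : ℝ) 1 := ⟨val_div_nonneg b, (val_div_lt b).le⟩
  have h := (hasSum_one_div_nat_pow_mul_cos one_ne_zero hx).mul_left (1 / Real.pi ^ 2)
  rw [bern_two] at h
  have hpi := Real.pi_ne_zero
  have h2 : (((2 * 1).factorial : ℕ) : ℝ) = 2 := by norm_num [Nat.factorial]
  have e1 : 1 / Real.pi ^ 2 * ((-1 : ℝ) ^ (1 + 1) * (2 * Real.pi) ^ (2 * 1) / 2 / ((2 * 1).factorial : ℝ) *
      (((b.val : ℝ) / m) ^ 2 - (b.val : ℝ) / m + 1 / 6)) = saw b ^ 2 - 1 / 12 := by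
    unfold saw
    rw [h2]
    generalize (b.val : ℝ) / m = y
    field_simp
    ring
  rw [e1] at h
  have e2 : (fun n : ℕ => 1 / Real.pi ^ 2 * (1 / (n : ℝ) ^ 2 * (ee ((n : ZMod m) * b)).re))
      = fun n : ℕ => 1 / Real.pi ^ 2 *
        (1 / (n : ℝ) ^ (2 * 1) * Real.cos (2 * Real.pi * n * ((b.val : ℝ) / m))) := by
    funext n
    rw [re_ee_nat]
  rw [e2]
  exact h

/-- the mean square as a series -/
lemma hasSum_avg_saw_sq (x : ZMod m) :
    HasSum (fun n : ℕ => 1 / Real.pi ^ 2 * (1 / (n : ℝ) ^ 2 * (kap ((n : ZMod m) * x)).re))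
      ((avg fun t : (ZMod m)ˣ => saw ((t : ZMod m) * x) ^ 2) - 1 / 12) := by
  have h1 : HasSum (fun n : ℕ => ((Fintype.card (ZMod m)ˣ : ℝ)⁻¹) * ∑ t : (ZMod m)ˣ,
      1 / Real.pi ^ 2 * (1 / (n : ℝ) ^ 2 * (ee ((n : ZMod m) * ((t : ZMod m) * x))).re))
      (((Fintype.card (ZMod m)ˣ : ℝ)⁻¹) * ∑ t : (ZMod m)ˣ, (saw ((t : ZMod m) * x) ^ 2 - 1 / 12)) := by
    have h0 : HasSum (fun n : ℕ => ∑ t : (ZMod m)ˣ,
        1 / Real.pi ^ 2 * (1 / (n : ℝ) ^ 2 * (ee ((n : ZMod m) * ((t : ZMod m) * x))).re))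
        (∑ t : (ZMod m)ˣ, (saw ((t : ZMod m) * x) ^ 2 - 1 / 12)) := by
      refine hasSum_sum (s := (univ : Finset (ZMod m)ˣ)) fun t _ => ?_
      exact hasSum_saw_sq ((t : ZMod m) * x)
    exact HasSum.mul_left _ h0
  have h2 : ((Fintype.card (ZMod m)ˣ : ℝ)⁻¹) * ∑ t : (ZMod m)ˣ, (saw ((t : ZMod m) * x) ^ 2 - 1 / 12)
      = (avg fun t : (ZMod m)ˣ => saw ((t : ZMod m) * x) ^ 2) - 1 / 12 := by
    have h3 := avg_add (fun t : (ZMod m)ˣ => saw ((t : ZMod m) * x) ^ 2) (fun _ => (-(1 / 12) : ℝ))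
    rw [avg_const] at h3
    rw [sub_eq_add_neg, ← h3]
    unfold avg
    rw [smul_eq_mul]
    rfl
  rw [h2] at h1
  have e2 : (fun n : ℕ => 1 / Real.pi ^ 2 * (1 / (n : ℝ) ^ 2 * (kap ((n : ZMod m) * x)).re))
      = fun n : ℕ => ((Fintype.card (ZMod m)ˣ : ℝ)⁻¹) * ∑ t : (ZMod m)ˣ,
      1 / Real.pi ^ 2 * (1 / (n : ℝ) ^ 2 * (ee ((n : ZMod m) * ((t : ZMod m) * x))).re) := by
    funext n
    have h4 : (kap ((n : ZMod m) * x)).re
        = ((Fintype.card (ZMod m)ˣ : ℝ)⁻¹) * ∑ t : (ZMod m)ˣ, (ee ((n : ZMod m) * ((t : ZMod m) * x))).re := by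
      unfold kap
      rw [avg_re]
      unfold avg
      rw [smul_eq_mul]
      congr 1
      refine Finset.sum_congr rfl fun t _ => ?_
      rw [mul_left_comm]
    rw [h4, ← Finset.mul_sum, ← Finset.mul_sum]
    generalize (∑ t : (ZMod m)ˣ, (ee ((n : ZMod m) * ((t : ZMod m) * x))).re) = Y
    ring
  rw [e2]
  exact h1

end

lemma order_mul_ge {m : ℕ} [NeZero m] {x : ZMod m} {n : ℕ} (hn : 0 < n) :
    addOrderOf x ≤ n * addOrderOf ((n : ZMod m) * x) := by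
  have h1 : (n * addOrderOf ((n : ZMod m) * x)) • x = 0 := by
    rw [mul_comm, mul_smul, nsmul_eq_mul n x]
    exact addOrderOf_nsmul_eq_zero _
  exact Nat.le_of_dvd (Nat.mul_pos hn (addOrderOf_pos _)) (addOrderOf_dvd_of_nsmul_eq_zero h1)

theorem single_var {η : ℝ} (hη : 0 < η) : ∃ D : ℕ, ∀ (m : ℕ) [NeZero m] (x : ZMod m),
    D ≤ addOrderOf x → 1 / 12 - η ≤ avg fun t : (ZMod m)ˣ => saw ((t : ZMod m) * x) ^ 2 := by
  have hpi := Real.pi_pos
  have hpi1 : 1 ≤ Real.pi ^ 2 := by nlinarith [Real.pi_gt_three]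
  have hsum : Summable fun n : ℕ => 1 / (n : ℝ) ^ 2 := Real.summable_one_div_nat_pow.mpr one_lt_two
  set T := ∑' n : ℕ, 1 / (n : ℝ) ^ 2 with hT
  obtain ⟨K, hK⟩ : ∃ K : ℕ, T - ∑ n ∈ range K, 1 / (n : ℝ) ^ 2 < η / 2 := by
    have h1 := hsum.hasSum.tendsto_sum_nat
    have h2 := h1.eventually (lt_mem_nhds (show T - η / 2 < T by linarith))
    obtain ⟨K, hK⟩ := h2.exists
    exact ⟨K, by linarith⟩
  have hT0 : 0 ≤ T := tsum_nonneg fun n => by positivity
  obtain ⟨D0, hD0⟩ := kap_small (ε := η / (2 * (T + 1))) (by positivity)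
  refine ⟨K * D0 + 1, fun m _ x hx => ?_⟩
  have h := hasSum_avg_saw_sq x
  set f : ℕ → ℝ := fun n => 1 / Real.pi ^ 2 * (1 / (n : ℝ) ^ 2 * (kap ((n : ZMod m) * x)).re) with hf
  have hkap1 : ∀ y : ZMod m, |(kap y).re| ≤ 1 := by
    intro y
    refine (Complex.abs_re_le_norm _).trans ?_
    unfold kap
    refine (norm_avg_le _).trans ?_
    refine avg_le fun t => ?_
    rw [norm_ee]
  -- lower bound of the terms
  have hlow : ∀ n : ℕ, (if n < K then -(η / (2 * (T + 1))) * (1 / (n : ℝ) ^ 2) else -(1 / (n : ℝ) ^ 2)) ≤ f n := by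
    intro n
    have hinv : 1 / Real.pi ^ 2 ≤ 1 := by
      rw [div_le_one (by positivity)]; exact hpi1
    have hinv0 : 0 ≤ 1 / Real.pi ^ 2 := by positivity
    have hn2 : 0 ≤ 1 / (n : ℝ) ^ 2 := by positivity
    have key : ∀ c : ℝ, 0 ≤ c → |(kap ((n : ZMod m) * x)).re| ≤ c → -c * (1 / (n : ℝ) ^ 2) ≤ f n := by
      intro c hc hkc
      have h1 := (abs_le.mp hkc).1
      have h2 : 1 / (n : ℝ) ^ 2 * (-c) ≤ 1 / (n : ℝ) ^ 2 * (kap ((n : ZMod m) * x)).re :=
        mul_le_mul_of_nonneg_left h1 hn2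
      have h3 := mul_le_mul_of_nonneg_left h2 hinv0
      have h4 : 1 / (n : ℝ) ^ 2 * (-c) ≤ 1 / Real.pi ^ 2 * (1 / (n : ℝ) ^ 2 * (-c)) := by
        have : 0 ≤ 1 / (n : ℝ) ^ 2 * c := by positivity
        nlinarith
      have h5 : -c * (1 / (n : ℝ) ^ 2) = 1 / (n : ℝ) ^ 2 * (-c) := by ring
      rw [h5]
      exact h4.trans h3
    split_ifs with hn
    · rcases Nat.eq_zero_or_pos n with h0 | h0
      · subst h0
        simp [hf]
      · refine key _ (by positivity) ?_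
        refine (Complex.abs_re_le_norm _).trans (hD0 m _ ?_)
        have h1 := order_mul_ge (x := x) h0
        by_contra hlt
        push Not at hlt
        have h2 : n * addOrderOf ((n : ZMod m) * x) ≤ K * D0 := Nat.mul_le_mul hn.le hlt.le
        omega
    · have := key 1 zero_le_one (hkap1 _)
      linarith
  -- the comparison series
  have hg : HasSum (fun n : ℕ => if n < K then -(η / (2 * (T + 1))) * (1 / (n : ℝ) ^ 2) else -(1 / (n : ℝ) ^ 2))
      (-T + ∑ n ∈ range K, (1 - η / (2 * (T + 1))) * (1 / (n : ℝ) ^ 2)) := by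
    have h1 : HasSum (fun n : ℕ => -(1 / (n : ℝ) ^ 2)) (-T) := hsum.hasSum.neg
    have h2 : HasSum (fun n : ℕ => if n ∈ range K then (1 - η / (2 * (T + 1))) * (1 / (n : ℝ) ^ 2) else 0)
        (∑ n ∈ range K, (1 - η / (2 * (T + 1))) * (1 / (n : ℝ) ^ 2)) := by
      have h3 : ∑ n ∈ range K, (if n ∈ range K then (1 - η / (2 * (T + 1))) * (1 / (n : ℝ) ^ 2) else 0)
          = ∑ n ∈ range K, (1 - η / (2 * (T + 1))) * (1 / (n : ℝ) ^ 2) :=
        Finset.sum_congr rfl fun n hn => if_pos hn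
      rw [← h3]
      exact hasSum_sum_of_ne_finset_zero fun b hb => if_neg hb
    have e3 : (fun n : ℕ => if n < K then -(η / (2 * (T + 1))) * (1 / (n : ℝ) ^ 2) else -(1 / (n : ℝ) ^ 2))
        = fun n : ℕ => -(1 / (n : ℝ) ^ 2) +
          (if n ∈ range K then (1 - η / (2 * (T + 1))) * (1 / (n : ℝ) ^ 2) else 0) := by
      funext n
      by_cases hn : n < K
      · rw [if_pos (mem_range.mpr hn), if_pos hn]; ring
      · rw [if_neg (fun h => hn (mem_range.mp h)), if_neg hn]; ring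
    rw [e3]
    exact h1.add h2
  have hle := hasSum_le hlow hg h
  have hTK : ∑ n ∈ range K, 1 / (n : ℝ) ^ 2 ≤ T := hsum.sum_le_tsum _ fun n _ => by positivity
  rw [← Finset.mul_sum] at hle
  have h6 : η / (2 * (T + 1)) * ∑ n ∈ range K, 1 / (n : ℝ) ^ 2 ≤ η / 2 := by
    calc η / (2 * (T + 1)) * ∑ n ∈ range K, 1 / (n : ℝ) ^ 2 ≤ η / (2 * (T + 1)) * T := by gcongr
      _ ≤ η / 2 := by
        rw [div_mul_eq_mul_div, div_le_div_iff₀ (by positivity) (by norm_num)]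
        nlinarith
  linarith

end Pool.Agent.Lib.MP_386e47_ag_h1
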