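import Mathlib
import Pool.Agent.Lib.MP_386e47_ag_h1.Var

/-!
The link graph of a character of level one.
-/

set_option autoImplicit false
set_option linter.unusedSectionVars false

namespace Pool.Agent.Lib.MP_386e47_ag_h1

open Finset
open Pool.Agent.Lib.MP_938ce2_ag_h85f

/-- `a` is a character of level one of the Fermat variety of degree `m` and dimension `2 l - 1`: no
entry is zero and the sum of the least nonnegative residues of `t a i` is `l m` or `(l + 1) m` for
all units `t`. -/
def LevelOne (m l : ℕ) (a : Fin (2 * l + 1) → ZMod m) : Prop :=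
  (∀ i, a i ≠ 0) ∧ ∀ t : (ZMod m)ˣ,
    ∑ i, ((t : ZMod m) * a i).val = l * m ∨ ∑ i, ((t : ZMod m) * a i).val = (l + 1) * m

/-- All entries but three can be grouped in pairs of opposite entries. -/
def PairsTriple (m l : ℕ) (a : Fin (2 * l + 1) → ZMod m) : Prop :=
  ∃ σ : Equiv.Perm (Fin (2 * l + 1)), (∀ i, σ (σ i) = i) ∧ (∀ i, σ i ≠ i → a (σ i) = - a i) ∧
    (univ.filter fun i => σ i = i).card = 3

lemma levelOne_saw {m l : ℕ} [NeZero m] {a : Fin (2 * l + 1) → ZMod m} (ha : LevelOne m l a)
    (t : (ZMod m)ˣ) : (∑ i, saw ((t : ZMod m) * a i)) ^ 2 = 1 / 4 := by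
  unfold saw
  have hm := (m_pos (m := m)).ne'
  rw [Finset.sum_sub_distrib, ← Finset.sum_div, ← Nat.cast_sum]
  rcases ha.2 t with h | h
  · rw [h]
    simp
    field_simp
    ring
  · rw [h]
    simp
    field_simp
    ring

lemma levelOne_sum {m l : ℕ} [NeZero m] {a : Fin (2 * l + 1) → ZMod m} (ha : LevelOne m l a) :
    ∑ i, a i = 0 := by
  have h1 : ((∑ i, (a i).val : ℕ) : ZMod m) = ∑ i, a i := by
    push_cast
    exact Finset.sum_congr rfl fun i _ => ZMod.natCast_zmod_val _
  rw [← h1]
  have h2 := ha.2 1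
  simp only [Units.val_one, one_mul] at h2
  rcases h2 with h | h <;> rw [h] <;> simp

section

variable {m : ℕ} [NeZero m]

/-- the mean square of the whole sum is at least the sum of the mean squares of the components, up
to the error -/
lemma sum_comp_le {k : ℕ} {Q : Type} [DecidableEq Q] (f : Fin k → Q) {η : ℝ} (hη : 0 ≤ η)
    {x : Fin k → ZMod m}
    (hdec : ∀ i j, f i ≠ f j →
      |avg fun t : (ZMod m)ˣ => saw ((t : ZMod m) * x i) * saw ((t : ZMod m) * x j)| ≤ η) :
    ∑ q ∈ univ.image f, avg (fun t : (ZMod m)ˣ =>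
      (∑ j ∈ univ.filter (fun j => f j = q), saw ((t : ZMod m) * x j)) ^ 2)
      ≤ avg (fun t : (ZMod m)ˣ => (∑ i, saw ((t : ZMod m) * x i)) ^ 2) + (k : ℝ) ^ 2 * η := by
  classical
  set c : Fin k → Fin k → ℝ := fun i j =>
    avg fun t : (ZMod m)ˣ => saw ((t : ZMod m) * x i) * saw ((t : ZMod m) * x j) with hc
  have hsq : ∀ C : Finset (Fin k), avg (fun t : (ZMod m)ˣ => (∑ j ∈ C, saw ((t : ZMod m) * x j)) ^ 2)
      = ∑ i ∈ C, ∑ j ∈ C, c i j := by
    intro C
    have h1 : ∀ t : (ZMod m)ˣ, (∑ j ∈ C, saw ((t : ZMod m) * x j)) ^ 2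
        = ∑ i ∈ C, ∑ j ∈ C, saw ((t : ZMod m) * x i) * saw ((t : ZMod m) * x j) := by
      intro t
      rw [sq, Finset.sum_mul_sum]
    simp only [h1]
    rw [avg_finsum]
    refine Finset.sum_congr rfl fun i _ => ?_
    rw [avg_finsum]
  have h3 : ∑ q ∈ univ.image f, ∑ i ∈ univ.filter (fun j => f j = q),
      ∑ j ∈ univ.filter (fun j => f j = q), c i j = ∑ i, ∑ j, if f j = f i then c i j else 0 := by
    rw [← Finset.sum_fiberwise_of_maps_to (s := (univ : Finset (Fin k))) (t := univ.image f) (g := f)
      (fun x _ => Finset.mem_image_of_mem f (Finset.mem_univ x))]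
    refine Finset.sum_congr rfl fun q _ => Finset.sum_congr rfl fun i hi => ?_
    have hi' : f i = q := (Finset.mem_filter.mp hi).2
    rw [Finset.sum_filter, hi']
  simp only [hsq]
  rw [h3]
  have h4 : ∀ i j, (if f j = f i then c i j else 0) ≤ c i j + η := by
    intro i j
    split_ifs with h
    · linarith
    · have := (abs_le.mp (hdec i j fun e => h e.symm)).1
      rw [hc]
      linarith
  refine (Finset.sum_le_sum fun i _ => Finset.sum_le_sum fun j _ => h4 i j).trans ?_
  simp only [Finset.sum_add_distrib, Finset.sum_const, Finset.card_univ, Fintype.card_fin,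
    nsmul_eq_mul]
  rw [sq]
  apply le_of_eq
  ring

end

/-- structure of the characters of level one which are not pairs and a triple -/
theorem cover_odd (l : ℕ) : ∃ B : ℕ, ∀ (m : ℕ) [NeZero m] (a : Fin (2 * l + 1) → ZMod m),
    LevelOne m l a → ¬ PairsTriple m l a →
      ∃ i₀, ∃ b : Fin l → ZMod m, ∀ i, i ≠ i₀ → link B (a i) 0 ∨ ∃ j, link B (a i) (b j) := by
  classical
  have hpi := Real.pi_pos
  have hpi3 := Real.pi_gt_three
  set k : ℕ := 2 * l + 1 with hk
  -- choice of the precision
  set η : ℝ := 1 / (40 * Real.pi ^ 2 * ((k : ℝ) ^ 2 + 4)) with hη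
  have hη0 : 0 < η := by positivity
  have hη1 : η ≤ 1 := by
    rw [hη, div_le_one (by positivity)]
    nlinarith [sq_nonneg (k : ℝ)]
  have hηk : ((k : ℝ) ^ 2 + 4) * η = 1 / (40 * Real.pi ^ 2) := by
    rw [hη]
    field_simp
  have hη2 : 1 / (40 * Real.pi ^ 2) < 1 / 12 := by
    rw [div_lt_div_iff₀ (by positivity) (by norm_num)]
    nlinarith
  have hη3 : 1 / (40 * Real.pi ^ 2) < 1 / (4 * Real.pi ^ 2) := by
    rw [div_lt_div_iff₀ (by positivity) (by positivity)]
    nlinarith
  obtain ⟨B0, hB0⟩ := pair_all k hη0 hη1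
  obtain ⟨D0, hD0⟩ := single_var hη0
  set B := max (max 1 B0) (max 1 D0) with hB
  have hB1 : 1 ≤ B := (le_max_left 1 B0).trans (le_max_left _ _)
  have hBD : D0 ≤ B := (le_max_right 1 D0).trans (le_max_right _ _)
  refine ⟨B ^ k * B, fun m _ a ha hnd => ?_⟩
  have hdec : ∀ i j, ¬ link B (a i) (a j) →
      |avg fun t : (ZMod m)ˣ => saw ((t : ZMod m) * a i) * saw ((t : ZMod m) * a j)| ≤ η :=
    fun i j h => hB0 m a ha.1 i j fun h' =>
      h (link_mono ((le_max_right 1 B0).trans (le_max_left _ _)) h')
  set G := lg B a with hG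
  let f : Fin k → G.ConnectedComponent := G.connectedComponentMk
  have hfr : ∀ i j, f i = f j → link (B ^ k) (a i) (a j) := fun i j h =>
    reach_link hB1 (SimpleGraph.ConnectedComponent.exact h)
  have hfl : ∀ i j, f i ≠ f j → ¬ link B (a i) (a j) := by
    intro i j h hl
    have hne : i ≠ j := fun e => h (by rw [e])
    apply h
    refine SimpleGraph.ConnectedComponent.sound ?_
    refine SimpleGraph.Adj.reachable ?_
    rw [hG, lg, SimpleGraph.fromRel_adj]
    exact ⟨hne, Or.inl hl⟩
  -- the mean squares
  let v : G.ConnectedComponent → ℝ := fun q => avg (fun t : (ZMod m)ˣ =>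
      (∑ j ∈ univ.filter (fun j => f j = q), saw ((t : ZMod m) * a j)) ^ 2)
  have hv0 : ∀ q, 0 ≤ v q := fun q => avg_nonneg fun t => sq_nonneg _
  have hvsum : ∑ q ∈ univ.image f, v q ≤ 1 / 4 + (k : ℝ) ^ 2 * η := by
    have h1 := sum_comp_le f hη0.le (x := a) (fun i j h => hdec i j (hfl i j h))
    have h2 : avg (fun t : (ZMod m)ˣ => (∑ i, saw ((t : ZMod m) * a i)) ^ 2) = 1 / 4 := by
      simp only [levelOne_saw ha]
      exact avg_const _
    rw [h2] at h1
    exact h1
  -- small orders
  let sm : Fin k → Prop := fun i => addOrderOf (a i) < D0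
  have hsm : ∀ i j, sm i → sm j → f i = f j := by
    intro i j hi hj
    by_contra hne
    refine hfl i j hne ⟨addOrderOf (a i), addOrderOf (a j), ?_, ?_, ?_, ?_, ?_⟩
    · exact_mod_cast (addOrderOf_pos (a i)).ne'
    · exact_mod_cast (addOrderOf_pos (a j)).ne'
    · rw [Int.natAbs_natCast]; exact (le_of_lt hi).trans hBD
    · rw [Int.natAbs_natCast]; exact (le_of_lt hj).trans hBD
    · push_cast
      rw [← nsmul_eq_mul, ← nsmul_eq_mul, addOrderOf_nsmul_eq_zero, addOrderOf_nsmul_eq_zero]
  have hz : ∀ i j, sm j → f i = f j → link (B ^ k * B) (a i) 0 := by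
    intro i j hj hij
    obtain ⟨u, w, hu, hw, hu1, hw1, e⟩ := hfr i j hij
    have ho := addOrderOf_pos (a j)
    refine ⟨u * addOrderOf (a j), 1, ?_, one_ne_zero, ?_, ?_, ?_⟩
    · exact mul_ne_zero hu (by exact_mod_cast ho.ne')
    · rw [Int.natAbs_mul, Int.natAbs_natCast]
      exact Nat.mul_le_mul hu1 ((le_of_lt hj).trans hBD)
    · have : 1 ≤ B ^ k * B := Nat.mul_pos (Nat.pow_pos hB1) hB1
      simpa using this
    · push_cast
      rw [mul_zero, mul_comm (u : ZMod m), mul_assoc, e, mul_left_comm, ← nsmul_eq_mul,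
        addOrderOf_nsmul_eq_zero, mul_zero]
  set Q := (univ.image f).filter fun q => ∀ i, f i = q → ¬ sm i with hQ
  set S := Q.filter fun q => (univ.filter fun j => f j = q).card = 1 with hS
  have hQsub : Q ⊆ univ.image f := Finset.filter_subset _ _
  have hSQ : S ⊆ Q := Finset.filter_subset _ _
  have hcpos : ∀ q ∈ univ.image f, 1 ≤ (univ.filter fun j => f j = q).card := by
    intro q hq
    obtain ⟨i, -, rfl⟩ := Finset.mem_image.mp hq
    exact Finset.card_pos.mpr ⟨i, by simp⟩
  have hsing : ∀ q ∈ S, 1 / 12 - η ≤ v q := by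
    intro q hq
    rw [hS, Finset.mem_filter] at hq
    obtain ⟨i, hi⟩ := Finset.card_eq_one.mp hq.2
    have hfi : f i = q := by
      have : i ∈ univ.filter fun j => f j = q := by rw [hi]; simp
      exact (Finset.mem_filter.mp this).2
    have h1 : ¬ sm i := (Finset.mem_filter.mp hq.1).2 i hfi
    have h2 := hD0 m (a i) (not_lt.mp h1)
    refine h2.trans (le_of_eq ?_)
    change _ = avg _
    congr 1
    funext t
    rw [hi, Finset.sum_singleton]
  have hSv : (S.card : ℝ) * (1 / 12 - η) ≤ ∑ q ∈ S, v q := by
    rw [← nsmul_eq_mul, ← Finset.sum_const]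
    exact Finset.sum_le_sum hsing
  have hsumQ : ∑ q ∈ S, v q ≤ ∑ q ∈ univ.image f, v q :=
    Finset.sum_le_sum_of_subset_of_nonneg (hSQ.trans hQsub) fun q _ _ => hv0 q
  have hS3 : S.card ≤ 3 := by
    by_contra hcon
    push Not at hcon
    have h1 : (4 : ℝ) ≤ S.card := by exact_mod_cast hcon
    have h2 : 0 ≤ 1 / 12 - η := by nlinarith [sq_nonneg (k : ℝ)]
    have h3 : 4 * (1 / 12 - η) ≤ (S.card : ℝ) * (1 / 12 - η) := mul_le_mul_of_nonneg_right h1 h2
    nlinarith
  -- counting
  have hcardall : ∑ q ∈ univ.image f, (univ.filter fun j => f j = q).card = 2 * l + 1 := by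
    rw [← Finset.card_eq_sum_card_image]
    simp [hk]
  have hcardQ : ∑ q ∈ Q, (univ.filter fun j => f j = q).card ≤ 2 * l + 1 :=
    (Finset.sum_le_sum_of_subset hQsub).trans hcardall.le
  have hlow : ∀ q ∈ Q, 2 ≤ (univ.filter fun j => f j = q).card + (if q ∈ S then 1 else 0) := by
    intro q hq
    have h1 := hcpos q (hQsub hq)
    split_ifs with h
    · omega
    · have h2 : (univ.filter fun j => f j = q).card ≠ 1 := fun e => h (by
        rw [hS, Finset.mem_filter]; exact ⟨hq, e⟩)
      omega
  have hind : ∑ q ∈ Q, (if q ∈ S then 1 else 0) = S.card := by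
    rw [Finset.sum_ite_mem, Finset.inter_eq_right.mpr hSQ, Finset.sum_const, smul_eq_mul, mul_one]
  have hcount : 2 * Q.card ≤ ∑ q ∈ Q, (univ.filter fun j => f j = q).card + S.card := by
    have h1 := Finset.sum_le_sum hlow
    rw [Finset.sum_const, smul_eq_mul, Finset.sum_add_distrib, hind] at h1
    omega
  -- representatives
  have hrep : ∀ q : G.ConnectedComponent, ∃ i, f i = q := fun q => q.exists_rep
  choose g hg using hrep
  have hfin : ∀ T : Finset G.ConnectedComponent, T.card ≤ l → ∀ i₀ : Fin k,
      (∀ i, i ≠ i₀ → (∃ j, sm j ∧ f i = f j) ∨ f i ∈ T) →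
      ∃ i₀, ∃ b : Fin l → ZMod m, ∀ i, i ≠ i₀ →
        link (B ^ k * B) (a i) 0 ∨ ∃ j, link (B ^ k * B) (a i) (b j) := by
    intro T hT i₀ hi
    obtain ⟨b, hb⟩ := exists_enum (T.image fun q => a (g q)) (Finset.card_image_le.trans hT)
    refine ⟨i₀, b, fun i hne => ?_⟩
    rcases hi i hne with ⟨j, hj, hij⟩ | hmem
    · exact Or.inl (hz i j hj hij)
    · right
      obtain ⟨j, hj⟩ := hb _ (Finset.mem_image_of_mem (fun q => a (g q)) hmem)
      refine ⟨j, ?_⟩
      rw [hj]
      exact link_mono (Nat.le_mul_of_pos_right _ hB1) (hfr _ _ (hg (f i)).symm)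
  have hor : ∀ i, (∃ j, sm j ∧ f i = f j) ∨ f i ∈ Q := by
    intro i
    by_cases h : ∃ j, sm j ∧ f i = f j
    · exact Or.inl h
    · right
      rw [hQ, Finset.mem_filter]
      refine ⟨Finset.mem_image_of_mem f (Finset.mem_univ i), fun j hj hs => h ⟨j, hs, hj.symm⟩⟩
  rcases Nat.lt_or_ge l Q.card with hlt | hge
  · rcases Nat.lt_or_ge (l + 1) Q.card with hlt2 | hge2
    · -- pairs and a triple
      exfalso
      have hQl : Q.card = l + 2 := by omega
      have hS3' : S.card = 3 := by omega
      have hsumQ' : ∑ q ∈ Q, (univ.filter fun j => f j = q).card = 2 * l + 1 := by omega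
      -- all components are in `Q`
      have hall : ∀ i, f i ∈ Q := by
        intro i
        by_contra hi
        have h1 : insert (f i) Q ⊆ univ.image f :=
          Finset.insert_subset (Finset.mem_image_of_mem f (Finset.mem_univ i)) hQsub
        have h2 := Finset.sum_le_sum_of_subset
          (f := fun q => (univ.filter fun j => f j = q).card) h1
        rw [hcardall, Finset.sum_insert hi, hsumQ'] at h2
        have h3 := hcpos (f i) (Finset.mem_image_of_mem f (Finset.mem_univ i))
        omega
      -- the sizes of the components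
      have hsize : ∀ q ∈ Q, (univ.filter fun j => f j = q).card + (if q ∈ S then 1 else 0) = 2 := by
        by_contra hcon
        push Not at hcon
        obtain ⟨q, hq, hne⟩ := hcon
        have h1 : ∑ q ∈ Q, 2 < ∑ q ∈ Q, ((univ.filter fun j => f j = q).card + (if q ∈ S then 1 else 0)) :=
          Finset.sum_lt_sum hlow ⟨q, hq, lt_of_le_of_ne (hlow q hq) (Ne.symm hne)⟩
        rw [Finset.sum_const, smul_eq_mul, Finset.sum_add_distrib, hind] at h1
        omega
      have hvsmall : ∀ q ∈ Q, q ∉ S → v q < 1 / (4 * Real.pi ^ 2) := by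
        intro q hq hqS
        have h1 : insert q S ⊆ univ.image f := Finset.insert_subset (hQsub hq) (hSQ.trans hQsub)
        have h2 := Finset.sum_le_sum_of_subset_of_nonneg (f := v) h1 fun q _ _ => hv0 q
        rw [Finset.sum_insert hqS] at h2
        rw [hS3'] at hSv
        push_cast at hSv
        nlinarith
      have hex : ∀ i, f i ∉ S → ∃ j, j ≠ i ∧ univ.filter (fun j => f j = f i) = {i, j} := by
        intro i hi
        have h1 := hsize (f i) (hall i)
        rw [if_neg hi, add_zero] at h1
        obtain ⟨p, q, hpq, he⟩ := Finset.card_eq_two.mp h1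
        have hi' : i ∈ univ.filter (fun j => f j = f i) := by simp
        rw [he, Finset.mem_insert, Finset.mem_singleton] at hi'
        rcases hi' with rfl | rfl
        · exact ⟨q, hpq.symm, he⟩
        · exact ⟨p, hpq, by rw [he, Finset.pair_comm]⟩
      let s : Fin k → Fin k := fun i => if h : f i ∈ S then i else (hex i h).choose
      have hs0 : ∀ i, f i ∈ S → s i = i := fun i h => dif_pos h
      have hs1 : ∀ i, f i ∉ S → s i ≠ i ∧ univ.filter (fun j => f j = f i) = {i, s i} := by
        intro i h
        have e : s i = (hex i h).choose := dif_neg h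
        rw [e]
        exact (hex i h).choose_spec
      have hfs : ∀ i, f (s i) = f i := by
        intro i
        by_cases h : f i ∈ S
        · rw [hs0 i h]
        · have : s i ∈ univ.filter (fun j => f j = f i) := by rw [(hs1 i h).2]; simp
          exact (Finset.mem_filter.mp this).2
      have hinv : ∀ i, s (s i) = i := by
        intro i
        by_cases h : f i ∈ S
        · rw [hs0 i h, hs0 i h]
        · have h' : f (s i) ∉ S := by rw [hfs]; exact h
          have h1 : i ∈ univ.filter (fun j => f j = f (s i)) := by simp [hfs]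
          rw [(hs1 (s i) h').2, Finset.mem_insert, Finset.mem_singleton] at h1
          rcases h1 with h1 | h1
          · exact absurd h1.symm (hs1 i h).1
          · exact h1.symm
      refine hnd ⟨⟨s, s, hinv, hinv⟩, hinv, fun i hi => ?_, ?_⟩
      · have hi' : s i ≠ i := hi
        have h : f i ∉ S := fun h => hi' (hs0 i h)
        by_contra hne
        have h1 := lower_two (m := m) a i (s i) (hs1 i h).1.symm (fun e => hne
          (neg_eq_of_add_eq_zero_right e).symm)
        have h2 := hvsmall (f i) (hall i) h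
        have h3 : v (f i) = avg fun t : (ZMod m)ˣ => (∑ j ∈ {i, s i}, saw ((t : ZMod m) * a j)) ^ 2 := by
          change avg _ = _
          rw [(hs1 i h).2]
        rw [h3] at h2
        exact absurd h1 (not_le.mpr h2)
      · -- the number of fixed points
        have h1 : (univ.filter fun i : Fin k => s i = i) = univ.filter fun i => f i ∈ S := by
          ext i
          simp only [Finset.mem_filter, Finset.mem_univ, true_and]
          constructor
          · intro h
            by_contra h'
            exact (hs1 i h').1 h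
          · exact hs0 i
        have h2 : (univ.filter fun i : Fin k => s i = i).card = 3 := by
          rw [h1, ← hS3']
          refine Finset.card_bij (fun i _ => f i) ?_ ?_ ?_
          · intro i hi
            exact (Finset.mem_filter.mp hi).2
          · intro i hi j hj hij
            have h3 := (Finset.mem_filter.mp (Finset.mem_filter.mp hi).2).2
            obtain ⟨p, hp⟩ := Finset.card_eq_one.mp h3
            have h4 : i ∈ univ.filter fun j => f j = f i := by simp
            have h5 : j ∈ univ.filter fun j => f j = f i := by simp [hij]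
            rw [hp, Finset.mem_singleton] at h4 h5
            rw [h4, h5]
          · intro q hq
            exact ⟨g q, by simp [hg, hq], hg q⟩
        exact h2
    · -- one single component is left out
      have hSpos : 0 < S.card := by omega
      obtain ⟨q₀, hq₀⟩ := Finset.card_pos.mp hSpos
      obtain ⟨i₀, hi₀⟩ := Finset.card_eq_one.mp (Finset.mem_filter.mp hq₀).2
      refine hfin (Q.erase q₀) ?_ i₀ fun i hne => ?_
      · rw [Finset.card_erase_of_mem (hSQ hq₀)]
        omega
      · rcases hor i with h | h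
        · exact Or.inl h
        · right
          rw [Finset.mem_erase]
          refine ⟨fun e => hne ?_, h⟩
          have h1 : i ∈ univ.filter fun j => f j = q₀ := by simp [e]
          rw [hi₀, Finset.mem_singleton] at h1
          exact h1
  · exact hfin Q hge ⟨0, by omega⟩ fun i _ => hor i

end Pool.Agent.Lib.MP_386e47_ag_h1
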