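import Mathlib
import Pool.Agent.Lib.MP_386e47_ag_h1.OddStruct

/-!
Counting the characters of level one.
-/

set_option autoImplicit false
set_option linter.unusedSectionVars false

namespace Pool.Agent.Lib.MP_386e47_ag_h1

open Finset
open Pool.Agent.Lib.MP_938ce2_ag_h85f

section

variable {m : ℕ} [NeZero m]

open Classical in
/-- tuples with sum zero which are covered by few values up to one entry -/
lemma card_cover_odd (l B : ℕ) (P : (Fin (2 * l + 1) → ZMod m) → Prop)
    (hP0 : ∀ a, P a → ∑ i, a i = 0)
    (hP : ∀ a, P a → ∃ i₀, ∃ b : Fin l → ZMod m, ∀ i, i ≠ i₀ →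
      link B (a i) 0 ∨ ∃ j, link B (a i) (b j)) :
    (univ.filter P).card ≤
      (2 * l + 1) * (1 + (l + 1) * ((2 * B + 1) ^ 2 * B)) ^ (2 * l + 1) * m ^ l := by
  set opt : (Fin l → ZMod m) → Finset (ZMod m) := fun b =>
    insert 0 ((univ.filter fun y : ZMod m => link B y 0) ∪
      (univ : Finset (Fin l)).biUnion fun j => univ.filter fun y : ZMod m => link B y (b j)) with hopt
  have hcard : ∀ b, (opt b).card ≤ 1 + (l + 1) * ((2 * B + 1) ^ 2 * B) := by
    intro b
    have h1 : ((univ.filter fun y : ZMod m => link B y 0) ∪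
      (univ : Finset (Fin l)).biUnion fun j => univ.filter fun y : ZMod m => link B y (b j)).card
        ≤ (2 * B + 1) ^ 2 * B + l * ((2 * B + 1) ^ 2 * B) := by
      refine (Finset.card_union_le _ _).trans (Nat.add_le_add (card_linked B 0) ?_)
      refine Finset.card_biUnion_le.trans ?_
      refine (Finset.sum_le_card_nsmul _ _ _ fun j _ => card_linked B (b j)).trans ?_
      rw [Finset.card_univ, Fintype.card_fin, smul_eq_mul]
    refine (Finset.card_insert_le _ _).trans ?_
    have h2 : (l + 1) * ((2 * B + 1) ^ 2 * B) = (2 * B + 1) ^ 2 * B + l * ((2 * B + 1) ^ 2 * B) := by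
      ring
    omega
  set A : Fin (2 * l + 1) → (Fin l → ZMod m) → Finset (Fin (2 * l + 1) → ZMod m) := fun i₀ b =>
    univ.filter fun a => ∑ i, a i = 0 ∧ ∀ i, i ≠ i₀ → a i ∈ opt b with hA
  have hAcard : ∀ i₀ b, (A i₀ b).card ≤ (1 + (l + 1) * ((2 * B + 1) ^ 2 * B)) ^ (2 * l + 1) := by
    intro i₀ b
    have h1 : (A i₀ b).card ≤ (Fintype.piFinset fun _ : Fin (2 * l + 1) => opt b).card := by
      refine Finset.card_le_card_of_injOn (fun a => Function.update a i₀ 0) ?_ ?_
      · intro a ha
        rw [Finset.mem_coe, hA, Finset.mem_filter] at ha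
        rw [Finset.mem_coe, Fintype.mem_piFinset]
        intro i
        rcases eq_or_ne i i₀ with rfl | hne
        · dsimp only
          rw [Function.update_self, hopt]
          exact Finset.mem_insert_self _ _
        · dsimp only
          rw [Function.update_of_ne hne]
          exact ha.2.2 i hne
      · intro a ha a' ha' h
        rw [Finset.mem_coe, hA, Finset.mem_filter] at ha ha'
        have h2 : ∀ i, i ≠ i₀ → a i = a' i := by
          intro i hne
          have := congrFun h i
          simp only [Function.update_of_ne hne] at this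
          exact this
        funext i
        rcases eq_or_ne i i₀ with rfl | hne
        · have e1 := ha.2.1
          have e2 := ha'.2.1
          rw [← Finset.add_sum_erase _ _ (Finset.mem_univ i)] at e1 e2
          have e3 : ∑ x ∈ univ.erase i, a x = ∑ x ∈ univ.erase i, a' x :=
            Finset.sum_congr rfl fun x hx => h2 x (Finset.ne_of_mem_erase hx)
          rw [e3, ← e2] at e1
          exact add_right_cancel e1
        · exact h2 i hne
    refine h1.trans ?_
    rw [Fintype.card_piFinset, Finset.prod_const, Finset.card_univ, Fintype.card_fin]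
    exact Nat.pow_le_pow_left (hcard b) _
  have hsub : univ.filter P ⊆ (univ : Finset (Fin (2 * l + 1))).biUnion fun i₀ =>
      (univ : Finset (Fin l → ZMod m)).biUnion fun b => A i₀ b := by
    intro a ha
    obtain ⟨i₀, b, hb⟩ := hP a (Finset.mem_filter.mp ha).2
    rw [Finset.mem_biUnion]
    refine ⟨i₀, Finset.mem_univ _, ?_⟩
    rw [Finset.mem_biUnion]
    refine ⟨b, Finset.mem_univ _, ?_⟩
    rw [hA, Finset.mem_filter]
    refine ⟨Finset.mem_univ _, hP0 a (Finset.mem_filter.mp ha).2, fun i hne => ?_⟩
    rw [hopt, Finset.mem_insert, Finset.mem_union]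
    right
    rcases hb i hne with h | ⟨j, h⟩
    · left; simpa using h
    · right
      rw [Finset.mem_biUnion]
      exact ⟨j, Finset.mem_univ _, by simpa using h⟩
  refine (Finset.card_le_card hsub).trans ?_
  refine Finset.card_biUnion_le.trans ?_
  refine (Finset.sum_le_card_nsmul _ _
    (m ^ l * (1 + (l + 1) * ((2 * B + 1) ^ 2 * B)) ^ (2 * l + 1)) fun i₀ _ => ?_).trans ?_
  · refine Finset.card_biUnion_le.trans ?_
    refine (Finset.sum_le_card_nsmul _ _ _ fun b _ => hAcard i₀ b).trans ?_
    rw [Finset.card_univ, Fintype.card_fun, Fintype.card_fin, ZMod.card, smul_eq_mul]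
  · rw [Finset.card_univ, Fintype.card_fin, smul_eq_mul]
    apply le_of_eq
    ring

lemma sum_val_pair {p : ZMod m} (hp : p ≠ 0) : p.val + (-p).val = m := by
  rw [ZMod.neg_val, if_neg hp]
  have := (ZMod.val_lt p).le
  omega

lemma sum_val_triple {p q r : ZMod m} (hp : p ≠ 0) (h : p + q + r = 0) :
    p.val + q.val + r.val = m ∨ p.val + q.val + r.val = 2 * m := by
  have h1 : ((p.val + q.val + r.val : ℕ) : ZMod m) = 0 := by
    push_cast
    rw [ZMod.natCast_zmod_val, ZMod.natCast_zmod_val, ZMod.natCast_zmod_val, h]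
  rw [ZMod.natCast_eq_zero_iff] at h1
  obtain ⟨k, hk⟩ := h1
  have hp' := ZMod.val_lt p
  have hq' := ZMod.val_lt q
  have hr' := ZMod.val_lt r
  have hp0 : 0 < p.val := Nat.pos_of_ne_zero fun e => hp ((ZMod.val_eq_zero p).mp e)
  have hk1 : k < 3 := by
    by_contra hcon
    push Not at hcon
    have : m * 3 ≤ m * k := Nat.mul_le_mul_left _ hcon
    omega
  interval_cases k
  · omega
  · left; omega
  · right; omega

lemma sum_even_odd {M : Type} [AddCommMonoid M] (h : ℕ → M) (l : ℕ) :
    ∑ i ∈ range (2 * l), h i = ∑ j ∈ range l, (h (2 * j) + h (2 * j + 1)) := by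
  induction l with
  | zero => simp
  | succ l ih =>
    rw [show 2 * (l + 1) = 2 * l + 1 + 1 by ring, Finset.sum_range_succ, Finset.sum_range_succ, ih,
      Finset.sum_range_succ, add_assoc]

/-- the tuple of `l` pairs, the last of which is replaced by the first two entries of a triple -/
def mkT (n : ℕ) (b : ℕ → ZMod m) (y : ZMod m) (i : ℕ) : ZMod m :=
  if i = 2 * n + 2 then - b n - y else if i = 2 * n + 1 then y
    else if i % 2 = 0 then b (i / 2) else - b (i / 2)

/-- the tuple with natural numbers as indices, as a tuple -/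
def mkF (n : ℕ) (b : Fin (n + 1) → ZMod m) (y : ZMod m) : Fin (2 * (n + 1) + 1) → ZMod m :=
  fun i => mkT n (fun j => if h : j < n + 1 then b ⟨j, h⟩ else 0) y i

lemma levelOne_mkF (n : ℕ) (b : Fin (n + 1) → ZMod m) (y : ZMod m) (hb : ∀ j, b j ≠ 0)
    (hy : y ≠ 0) (hy2 : y ≠ - b (Fin.last n)) : LevelOne m (n + 1) (mkF n b y) := by
  set c : ℕ → ZMod m := fun j => if h : j < n + 1 then b ⟨j, h⟩ else 0 with hc
  have hc0 : ∀ j, j < n + 1 → c j ≠ 0 := by
    intro j hj
    rw [hc]
    simp only [dif_pos hj]
    exact hb _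
  have hcn : c n = b (Fin.last n) := by
    rw [hc]
    simp only [dif_pos (Nat.lt_succ_self n)]
    rfl
  have hlast : - c n - y ≠ 0 := by
    intro h
    apply hy2
    rw [hcn] at h
    rw [sub_eq_zero] at h
    exact h.symm
  constructor
  · intro i
    have hi := i.2
    unfold mkF mkT
    rw [← hc]
    split_ifs with h1 h2 h3
    · exact hlast
    · exact hy
    · exact hc0 _ (by omega)
    · exact neg_ne_zero.mpr (hc0 _ (by omega))
  · intro t
    have hsum : ∑ i : Fin (2 * (n + 1) + 1), ((t : ZMod m) * mkF n b y i).val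
        = ∑ i ∈ range (2 * n), ((t : ZMod m) * mkT n c y i).val
          + ((t : ZMod m) * c n).val + ((t : ZMod m) * y).val + ((t : ZMod m) * (- c n - y)).val := by
      have h1 : ∑ i : Fin (2 * (n + 1) + 1), ((t : ZMod m) * mkF n b y i).val
          = ∑ i ∈ range (2 * (n + 1) + 1), ((t : ZMod m) * mkT n c y i).val :=
        Fin.sum_univ_eq_sum_range (fun i => ((t : ZMod m) * mkT n c y i).val) _
      rw [h1, show 2 * (n + 1) + 1 = 2 * n + 1 + 1 + 1 by ring, Finset.sum_range_succ,
        Finset.sum_range_succ, Finset.sum_range_succ]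
      congr 3
      · congr 1
        unfold mkT
        rw [if_neg (by omega), if_neg (by omega), if_pos (by omega)]
        congr 2
        omega
      · unfold mkT
        rw [if_neg (by omega), if_pos (by omega)]
      · congr 1
        unfold mkT
        rw [if_pos (by omega)]
    have hpairs : ∑ i ∈ range (2 * n), ((t : ZMod m) * mkT n c y i).val = n * m := by
      rw [sum_even_odd]
      have h1 : ∀ j ∈ range n, ((t : ZMod m) * mkT n c y (2 * j)).val
          + ((t : ZMod m) * mkT n c y (2 * j + 1)).val = m := by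
        intro j hj
        rw [mem_range] at hj
        have e1 : mkT n c y (2 * j) = c j := by
          unfold mkT
          rw [if_neg (by omega), if_neg (by omega), if_pos (by omega)]
          congr 1
          omega
        have e2 : mkT n c y (2 * j + 1) = - c j := by
          unfold mkT
          rw [if_neg (by omega), if_neg (by omega), if_neg (by omega)]
          congr 2
          omega
        rw [e1, e2, mul_neg]
        exact sum_val_pair (unit_mul_ne_zero t (hc0 j (by omega)))
      rw [Finset.sum_congr rfl h1, Finset.sum_const, card_range, smul_eq_mul]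
    have htri := sum_val_triple (m := m) (p := (t : ZMod m) * c n) (q := (t : ZMod m) * y)
      (r := (t : ZMod m) * (- c n - y)) (unit_mul_ne_zero t (hc0 n (by omega))) (by ring)
    rw [hsum, hpairs]
    rcases htri with h | h
    · left
      rw [add_assoc, add_assoc, ← add_assoc (((t : ZMod m) * c n).val), h]
      ring
    · right
      rw [add_assoc, add_assoc, ← add_assoc (((t : ZMod m) * c n).val), h]
      ring

open Classical in
lemma card_levelOne_ge (n : ℕ) :
    (m - 1) ^ (n + 1) * (m - 2) ≤
      (univ.filter fun a : Fin (2 * (n + 1) + 1) → ZMod m => LevelOne m (n + 1) a).card := by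
  set dom : Finset (Σ _ : Fin (n + 1) → ZMod m, ZMod m) :=
    (Fintype.piFinset fun _ : Fin (n + 1) => univ.erase (0 : ZMod m)).sigma
      fun b => (univ.erase (0 : ZMod m)).erase (- b (Fin.last n)) with hdom
  have hcard : dom.card = (m - 1) ^ (n + 1) * (m - 2) := by
    rw [hdom, Finset.card_sigma]
    have h1 : ∀ b ∈ (Fintype.piFinset fun _ : Fin (n + 1) => univ.erase (0 : ZMod m)),
        ((univ.erase (0 : ZMod m)).erase (- b (Fin.last n))).card = m - 2 := by
      intro b hb
      rw [Fintype.mem_piFinset] at hb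
      have h2 := Finset.ne_of_mem_erase (hb (Fin.last n))
      rw [Finset.card_erase_of_mem, Finset.card_erase_of_mem (Finset.mem_univ _), Finset.card_univ,
        ZMod.card]
      · omega
      · rw [Finset.mem_erase]
        exact ⟨neg_ne_zero.mpr h2, Finset.mem_univ _⟩
    rw [Finset.sum_congr rfl h1, Finset.sum_const, smul_eq_mul, Fintype.card_piFinset,
      Finset.prod_const, Finset.card_erase_of_mem (Finset.mem_univ _), Finset.card_univ,
      Finset.card_univ, ZMod.card, Fintype.card_fin]
  rw [← hcard]
  refine Finset.card_le_card_of_injOn (fun x => mkF n x.1 x.2) ?_ ?_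
  · rintro ⟨b, y⟩ hx
    rw [Finset.mem_coe, hdom, Finset.mem_sigma] at hx
    obtain ⟨hb, hy⟩ := hx
    rw [Fintype.mem_piFinset] at hb
    rw [Finset.mem_erase, Finset.mem_erase] at hy
    rw [Finset.mem_coe, Finset.mem_filter]
    exact ⟨Finset.mem_univ _, levelOne_mkF n b y (fun j => Finset.ne_of_mem_erase (hb j)) hy.2.1 hy.1⟩
  · rintro ⟨b, y⟩ _ ⟨b', y'⟩ _ h
    have h' : ∀ i, mkF n b y i = mkF n b' y' i := fun i => congrFun h i
    have hb : b = b' := by
      funext j
      have h1 := h' ⟨2 * j, by have := j.2; omega⟩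
      have hj := j.2
      unfold mkF mkT at h1
      simp only at h1
      rw [if_neg (by omega), if_neg (by omega), if_pos (by omega), if_neg (by omega),
        if_neg (by omega), if_pos (by omega)] at h1
      have e : 2 * (j : ℕ) / 2 = j := by omega
      rw [e, dif_pos hj, dif_pos hj] at h1
      exact h1
    have hy : y = y' := by
      have h1 := h' ⟨2 * n + 1, by omega⟩
      unfold mkF mkT at h1
      simp only at h1
      rw [if_neg (by omega), if_pos trivial, if_neg (by omega), if_pos trivial] at h1
      exact h1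
    rw [hb, hy]

end

open Classical in
theorem main_odd (l : ℕ) (hl : 1 ≤ l) : ∃ C : ℕ, ∀ (m : ℕ) [NeZero m],
    (univ.filter fun a : Fin (2 * l + 1) → ZMod m => LevelOne m l a ∧ ¬ PairsTriple m l a).card
      ≤ C * m ^ l ∧
    (m - 1) ^ l * (m - 2) ≤ (univ.filter fun a : Fin (2 * l + 1) → ZMod m => LevelOne m l a).card := by
  obtain ⟨B, hB⟩ := cover_odd l
  refine ⟨(2 * l + 1) * (1 + (l + 1) * ((2 * B + 1) ^ 2 * B)) ^ (2 * l + 1), fun m _ => ⟨?_, ?_⟩⟩
  · have h := card_cover_odd (m := m) l B (fun a => LevelOne m l a ∧ ¬ PairsTriple m l a)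
      (fun a ha => levelOne_sum ha.1) fun a ha => hB m a ha.1 ha.2
    convert h
  · obtain ⟨n, rfl⟩ : ∃ n, l = n + 1 := ⟨l - 1, by omega⟩
    exact card_levelOne_ge n

end Pool.Agent.Lib.MP_386e47_ag_h1
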